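import Pool.Agent.Work.MP_8f87b2_h68.JVI

/-!
# MP_8f87b2_co: the 13-word gadgets (JV pair merged with an E pair), the part used by the rows of the matrix

Words `W R nil B S i`, `i` = 0 .. 9, 12, 15, 17 (`sq R = (S, B)`), arcs 3 > 12, 6 > 15, 9 > 17. The nine words of
`Is9 nil nil R` are among them, the arcs are the same. The other four words are `R()()`, `()R()`, `()()R`, `()(R)`.
-/

set_option autoImplicit false

namespace Pool.OddHC

open Finset Equiv BinaryTree Pool.Agent.Work.MP_8f87b2_co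

open J3 SRun

variable {k : ℕ} {R B S : BinaryTree Unit} {v : ℕ → X k} {F F' : Set (Cyc k)} {g g' : DG k}

/-- the indices of the 13 words -/
def ixE : List ℕ := [0, 1, 2, 3, 4, 5, 6, 7, 8, 9, 12, 15, 17]

/-- what the rows of the matrix use of a 13-word gadget with words `v i` -/
structure DE (k : ℕ) (R B S : BinaryTree Unit) (v : ℕ → X k) (F : Set (Cyc k)) (g : DG k) : Prop where
  sq : SqD k R B S
  word : ∀ i ∈ ixE, (v i).1 = H1.W R .nil B S i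
  n04 : cyc (v 0) ≠ cyc (v 4)
  f0 : cyc (v 0) ∈ F
  f4 : cyc (v 4) ∈ F
  wds : ∀ w ∈ g.B, ∃ i ∈ ixE, w = v i
  ar : ∀ p ∈ g.arcs, p = (v 3, v 12) ∨ p = (v 6, v 15) ∨ p = (v 9, v 17)

theorem DE.d9 (h : DE k R B S v F g) : D9 .nil .nil R (fun i => v (j9 i)) := by
  have h3 := h.sq.h3
  have h00 : ht (BinaryTree.nil : BinaryTree Unit) = 0 := rfl
  refine ⟨by omega, by omega, h.sq.two, ?_, h.n04⟩
  intro i hi
  have hS : S = sT R := by rw [(sT_sq R).1, h.sq.sq]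
  have hB : B = bT R := by rw [(sT_sq R).2, h.sq.sq]
  have hj : j9 i ∈ ixE := (by decide : ∀ i < 9, j9 i ∈ ixE) i hi
  rw [h.word _ hj, hS, hB]
  interval_cases i <;> rfl

/-- the nine words of the JV gadget -/
theorem DE.is9 (h : DE k R B S v F g) :
    Is9 .nil .nil R {cyc (v 0), cyc (v 4)} (gad9 (fun i => v (j9 i))) := ⟨_, h.d9, rfl, rfl⟩

theorem DE.sub9 (h : DE k R B S v F g) : ∀ c ∈ ({cyc (v 0), cyc (v 4)} : Set (Cyc k)), c ∈ F := by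
  rintro c (rfl | rfl)
  · exact h.f0
  · exact h.f4

theorem DE.arc9 (h : DE k R B S v F g) : ∀ p ∈ g.arcs, p ∈ (gad9 (fun i => v (j9 i))).arcs := by
  intro p hp
  change p = (v 9, v 17) ∨ p = (v 3, v 12) ∨ p = (v 6, v 15)
  rcases h.ar p hp with e | e | e
  · exact Or.inr (Or.inl e)
  · exact Or.inr (Or.inr e)
  · exact Or.inl e

/-- the words: nine of JV and four others -/
theorem DE.wd9 (h : DE k R B S v F g) : ∀ w ∈ g.B, w ∈ (gad9 (fun i => v (j9 i))).B ∨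
    ∃ i ∈ [1, 2, 5, 8], w.1 = H1.W R .nil B S i := by
  intro w hw
  obtain ⟨i, hi, rfl⟩ := h.wds w hw
  have key : ∀ i ∈ ixE, (∃ j < 9, j9 j = i) ∨ i ∈ [1, 2, 5, 8] := by decide
  rcases key i hi with ⟨j, hj, e⟩ | h2
  · left
    exact mem_gad9.2 ⟨j, hj, by rw [← e]⟩
  · right
    exact ⟨i, h2, h.word i hi⟩

theorem DE.lt {i : ℕ} (hi : i ∈ ixE) : i < 20 := (by decide : ∀ i ∈ ixE, i < 20) i hi

theorem DE.wd20 (h : DE k R B S v F g) : ∀ w ∈ g.B, ∃ i < 20, w.1 = H1.W R .nil B S i := by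
  intro w hw
  obtain ⟨i, hi, rfl⟩ := h.wds w hw
  exact ⟨i, DE.lt hi, h.word i hi⟩

theorem DE.njs (h : DE k R B S v F g) : ∀ w ∈ g.B, NJS w := by
  intro w hw
  obtain ⟨i, hi, e⟩ := h.wd20 w hw
  exact NJS.of_W h.sq.ne h.sq.neS h.sq.one h.sq.oneB h.sq.oneS hi (Or.inl e)

/-- the inner words -/
theorem DE.nis (h : DE k R B S v F g) : ∀ p ∈ g.arcs, ∀ u ∈ innA p, NIS u ∨
    (D2 (wd u.1) ∧ u = TT p.1 ∧ p.1.1 = (R △ .nil) △ .nil) := fun p hp =>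
  h.is9.nis h.sq.h3 h.sq.one p (h.arc9 p hp)

/-- the mirrored 13-word gadget: the words `v i` are the mirror images of `W R nil B S i` -/
structure DEM (k : ℕ) (R B S : BinaryTree Unit) (v : ℕ → X k) (F : Set (Cyc k)) (g : DG k) : Prop where
  sq : SqD k R B S
  word : ∀ i ∈ ixE, (v i).1 = Tsq.mir (H1.W R .nil B S i)
  n04 : cyc (v 0) ≠ cyc (v 4)
  f0 : cyc (v 0) ∈ F
  f4 : cyc (v 4) ∈ F
  wds : ∀ w ∈ g.B, ∃ i ∈ ixE, w = v i
  ar : ∀ p ∈ g.arcs, p = (v 12, v 3) ∨ p = (v 15, v 6) ∨ p = (v 17, v 9)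

theorem W9_eq {S B : BinaryTree Unit} (h : Tsq.sq R = (S, B)) {i : ℕ} (hi : i < 9) :
    H1.W R .nil B S (j9 i) = w9L .nil .nil R (xT R) i := by
  have hS : S = sT R := by rw [(sT_sq R).1, h]
  have hB : B = bT R := by rw [(sT_sq R).2, h]
  rw [hS, hB]
  interval_cases i <;> rfl

theorem DEM.d9 (h : DEM k R B S v F g) : D9M .nil .nil (Tsq.mir R) (fun i => v (j9 i)) := by
  have h3 := h.sq.h3
  have h00 : ht (BinaryTree.nil : BinaryTree Unit) = 0 := rfl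
  refine ⟨by rw [ht_mir]; omega, by rw [ht_mir]; omega, by rw [ht_mir, Tsq.mir_num]; exact h.sq.two,
    ?_, h.n04⟩
  intro i hi
  have hj : j9 i ∈ ixE := (by decide : ∀ i < 9, j9 i ∈ ixE) i hi
  rw [h.word _ hj, W9_eq h.sq.sq hi]
  have h1 := mir_w9LM .nil .nil (Tsq.mir R) (xT R) i hi
  have e0 : Tsq.mir (.nil : BinaryTree Unit) = .nil := rfl
  rw [Tsq.mir_mir, e0] at h1
  rw [← h1, Tsq.mir_mir]
  unfold xTM
  rw [Tsq.mir_mir]

theorem DEM.is9 (h : DEM k R B S v F g) :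
    Is9M .nil .nil (Tsq.mir R) {cyc (v 0), cyc (v 4)} (gad9M (fun i => v (j9 i))) := ⟨_, h.d9, rfl, rfl⟩

theorem DEM.sub9 (h : DEM k R B S v F g) : ∀ c ∈ ({cyc (v 0), cyc (v 4)} : Set (Cyc k)), c ∈ F := by
  rintro c (rfl | rfl)
  · exact h.f0
  · exact h.f4

theorem DEM.arc9 (h : DEM k R B S v F g) : ∀ p ∈ g.arcs, p ∈ (gad9M (fun i => v (j9 i))).arcs := by
  intro p hp
  change p = (v 17, v 9) ∨ p = (v 12, v 3) ∨ p = (v 15, v 6)
  rcases h.ar p hp with e | e | e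
  · exact Or.inr (Or.inl e)
  · exact Or.inr (Or.inr e)
  · exact Or.inl e

/-- the words: nine of JV and four others -/
theorem DEM.wd9 (h : DEM k R B S v F g) : ∀ w ∈ g.B, w ∈ (gad9M (fun i => v (j9 i))).B ∨
    ∃ i ∈ [1, 2, 5, 8], w.1 = Tsq.mir (H1.W R .nil B S i) := by
  intro w hw
  obtain ⟨i, hi, rfl⟩ := h.wds w hw
  have key : ∀ i ∈ ixE, (∃ j < 9, j9 j = i) ∨ i ∈ [1, 2, 5, 8] := by decide
  rcases key i hi with ⟨j, hj, e⟩ | h2
  · left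
    exact mem_gad9M.2 ⟨j, hj, by rw [← e]⟩
  · right
    exact ⟨i, h2, h.word i hi⟩

theorem DEM.wd20 (h : DEM k R B S v F g) : ∀ w ∈ g.B, ∃ i < 20, w.1 = Tsq.mir (H1.W R .nil B S i) := by
  intro w hw
  obtain ⟨i, hi, rfl⟩ := h.wds w hw
  exact ⟨i, DE.lt hi, h.word i hi⟩

theorem DEM.njs (h : DEM k R B S v F g) : ∀ w ∈ g.B, NJS w := by
  intro w hw
  obtain ⟨i, hi, e⟩ := h.wd20 w hw
  exact NJS.of_W h.sq.ne h.sq.neS h.sq.one h.sq.oneB h.sq.oneS hi (Or.inr e)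

/-- the inner words -/
theorem DEM.nis (h : DEM k R B S v F g) : ∀ p ∈ g.arcs, ∀ u ∈ innA p, NIS u ∨
    (D2 (wd (Tsq.mirX u).1) ∧ ∃ x : X k, u = Tsq.mirX (TT x) ∧ x.1 = (R △ .nil) △ .nil) := by
  intro p hp u hu
  have h1 := h.is9.nis (by rw [ht_mir]; exact h.sq.h3) (by rw [HM.cont_mir]; exact h.sq.one) p
    (h.arc9 p hp) u hu
  rw [Tsq.mir_mir] at h1
  exact h1

end Pool.OddHC
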