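import Pool.Agent.Work.MP_8f87b2_h25.JEIn
import Pool.Agent.Work.MP_8f87b2_h84.JEde

/-!
# MP_8f87b2_co: the rows of type JE, inner words, in terms of `TyJE R`
-/

set_option autoImplicit false

namespace Pool.OddHC

open Finset Equiv BinaryTree Pool.Agent.Work.MP_8f87b2_co

open J3 SRun

variable {k : ℕ} {R R' S : BinaryTree Unit} {F F' : Set (Cyc k)} {g g' : DG k}

theorem TyJE.sqd (h : TyJE R F g) : ∃ B S : BinaryTree Unit, SqD k R B S := by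
  obtain ⟨B, S, w0, h1, _, _, _⟩ := h
  exact ⟨B, S, h1⟩

theorem TyJE.h3 (h : TyJE R F g) : 3 ≤ ht R := by
  obtain ⟨B, S, h1⟩ := h.sqd
  exact h1.h3

theorem TyJE.one (h : TyJE R F g) : (cont R).count 1 = 0 := by
  obtain ⟨B, S, h1⟩ := h.sqd
  exact h1.one

theorem TyJE.ne (h : TyJE R F g) : R ≠ .nil := by
  obtain ⟨B, S, h1⟩ := h.sqd
  exact h1.ne

theorem TyJE.gd (h : TyJE R F g) : Gd R := (Gd_of h.ne h.one).1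

theorem TyJE.njs (h : TyJE R F g) : ∀ w ∈ g.B, NJS w := by
  obtain ⟨B, S, v, h1⟩ := h.de
  exact h1.njs

theorem TyJE.nis2 (h : TyJE R F g) : ∀ p ∈ g.arcs, ∀ w ∈ innA p, NIS w ∨ D2 (OddHC.wd w.1) := by
  obtain ⟨B, S, v, h1⟩ := h.de
  exact h1.nis2

theorem TyJE.nis (h : TyJE R F g) : ∀ p ∈ g.arcs, ∀ u ∈ innA p, NIS u ∨
    (D2 (wd u.1) ∧ u = TT p.1 ∧ p.1.1 = (R △ .nil) △ .nil) := by
  obtain ⟨B, S, v, h1⟩ := h.de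
  exact h1.nis

/-- **every row JV-X gives the row JE-X** -/
theorem TyJE.inner_of9 (h : TyJE R F g) {A : Finset (X k)}
    (hV : ∀ F1 g1, Is9 .nil .nil R F1 g1 → F1 ⊆ F → ∀ p ∈ g1.arcs, ∀ w ∈ innA p, w ∉ A) :
    ∀ p ∈ g.arcs, ∀ w ∈ innA p, w ∉ A := by
  obtain ⟨F1, g1, h1, h2, _, h4⟩ := h.toIs9
  intro p hp
  exact hV F1 g1 h1 h2 p (by rw [h4]; exact hp)

/-- **every row X-JV gives the row X-JE**, if the inner words have no bead at the ends -/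
theorem TyJE.not_of (h : TyJE R F g) {w : X k}
    (hV : ∀ F1 g1, Is9 .nil .nil R F1 g1 → F1 ⊆ F → w ∉ g1.B) (h2 : ¬ Bd w.1) : w ∉ g.B := by
  obtain ⟨B, S, v, h1⟩ := h.de
  exact h1.not_of (hV _ _ h1.is9 h1.sub9) h2

/-- the nine words are enough for a word which is `NIS` or without single runs -/
theorem TyJE.not_of2 (h : TyJE R F g) {w : X k}
    (hV : ∀ F1 g1, Is9 .nil .nil R F1 g1 → F1 ⊆ F → w ∉ g1.B) (h2 : NIS w ∨ D2 (OddHC.wd w.1)) :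
    w ∉ g.B := by
  rcases h2 with h2 | h2
  · exact h2.not_mem h.njs
  · exact h.not_of hV (fun hb => hb.not_D2 h2)

/-! ### X - JE -/

/-- **I-A-JE** -/
theorem TyA.inner_JE (h : TyA F g) (h' : TyJE R F' g') (hS : JVw R)
    (hb : ∀ c ∈ F, 1 ∈ contc c) (hh : ∀ c ∈ F, ∀ d ∈ F', htc c ≤ htc d) {a : X k × X k}
    (ha : a ∈ g.arcs) : ∀ w ∈ innA a, w ∉ g'.B := by
  obtain ⟨B, S, v, h1⟩ := h'.de
  exact h.inner_DE h1 hS hb hh ha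

/-- **I-A0-JE** -/
theorem TyA0.inner_JE (h : TyA0 F g) (h' : TyJE R F' g') (hS : JVw R)
    (hh : ∀ c ∈ F, ∀ d ∈ F', htc c ≤ htc d) : ∀ p ∈ g.arcs, ∀ w ∈ innA p, w ∉ g'.B := by
  obtain ⟨B, S, v, h1⟩ := h'.de
  exact h.inner_DE h1 hS hh

/-- **I-B0-JE** -/
theorem TyB0.inner_JE (h : TyB0 F g) (h' : TyJE R F' g') (hS : JVw R)
    (hh : ∀ c ∈ F, ∀ d ∈ F', htc c ≤ htc d) : ∀ p ∈ g.arcs, ∀ w ∈ innA p, w ∉ g'.B := by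
  obtain ⟨B, S, v, h1⟩ := h'.de
  exact h.inner_DE h1 hS hh

/-- **I-T-JE** -/
theorem TyT.inner_JE (h : TyT F g) (h' : TyJE R F' g') (hS : JVw R) :
    ∀ p ∈ g.arcs, ∀ w ∈ innA p, w ∉ g'.B := by
  obtain ⟨B, S, v, h1⟩ := h'.de
  exact h.inner_DE h1 hS

/-- **I-JM-JE** -/
theorem TyJM.inner_JE (h : TyJM F g) (h' : TyJE R F' g') : ∀ p ∈ g.arcs, ∀ w ∈ innA p, w ∉ g'.B :=
  fun p hp w hw => (h.nis p hp w hw).not_mem h'.njs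

/-- **I-J3V-JE** -/
theorem TyJ3V.inner_JE (h : TyJ3V F g) (h' : TyJE R F' g') : ∀ p ∈ g.arcs, ∀ w ∈ innA p, w ∉ g'.B :=
  fun p hp w hw => (h.nis p hp w hw).not_mem h'.njs

/-- **I-J5V-JE** -/
theorem TyJ5V.inner_JE (h : TyJ5V F g) (h' : TyJE R F' g') : ∀ p ∈ g.arcs, ∀ w ∈ innA p, w ∉ g'.B :=
  fun p hp w hw => (h.nis1 p hp w hw).not_mem h'.njs

/-- **I-JV-JE**, JV right or mirrored: the row I-JV-JV is enough -/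
theorem Is9.inner_JE (h : Is9 .nil .nil S F g ∨ Is9M .nil .nil S F g) (h3 : 3 ≤ ht S)
    (h1 : (cont S).count 1 = 0) (h' : TyJE R F' g')
    (hJ : ∀ F1 g1, Is9 .nil .nil R F1 g1 → F1 ⊆ F' → ∀ p ∈ g.arcs, ∀ w ∈ innA p, w ∉ g1.B) :
    ∀ p ∈ g.arcs, ∀ w ∈ innA p, w ∉ g'.B := fun p hp w hw =>
  h'.not_of2 (fun F1 g1 e1 e2 => hJ F1 g1 e1 e2 p hp w hw) (Is9.nis2 h h3 h1 p hp w hw)

/-- **I-JE-JE**: the row I-JV-JV is enough -/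
theorem TyJE.inner_JE (h : TyJE R F g) (h' : TyJE R' F' g')
    (hJ : ∀ F1 g1 F2 g2, Is9 .nil .nil R F1 g1 → F1 ⊆ F → Is9 .nil .nil R' F2 g2 → F2 ⊆ F' →
      ∀ p ∈ g1.arcs, ∀ w ∈ innA p, w ∉ g2.B) :
    ∀ p ∈ g.arcs, ∀ w ∈ innA p, w ∉ g'.B := by
  obtain ⟨F1, g1, h1, h2, _, h4⟩ := h.toIs9
  intro p hp w hw
  exact h'.not_of2 (fun F2 g2 e1 e2 => hJ F1 g1 F2 g2 h1 h2 e1 e2 p (by rw [h4]; exact hp) w hw)
    (h.nis2 p hp w hw)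

end Pool.OddHC
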