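import Pool.Agent.Work.MP_8f87b2_h25.JEOut
import Pool.Agent.Work.MP_8f87b2_h68.J1I
import Pool.Agent.Work.MP_8f87b2_h13.R3In
import Pool.Agent.Work.MP_8f87b2_h10.JVA0

/-!
# MP_8f87b2_co: inner words of the J kinds, J1, R3, S3 against JE; JE against A0
-/

set_option autoImplicit false

namespace Pool.OddHC

open Finset Equiv BinaryTree Pool.Agent.Work.MP_8f87b2_co

open J3 JVI SRun H1

variable {k s c : ℕ} {R R' S : BinaryTree Unit} {F F' : Set (Cyc k)} {g g' : DG k}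

/-- **I-H-JE**, all groups of the one soliton classes -/
theorem Hole2.TyH.inner_JE (h : Hole2.TyH F g) (h' : TyJE R F' g') : ∀ p ∈ g.arcs, ∀ w ∈ innA p, w ∉ g'.B :=
  fun p hp w hw => (h.nis p hp w hw).not_mem h'.njs

/-- **I-NM-JE** -/
theorem TyNM.inner_JE (h : TyNM F g) (h' : TyJE R F' g') : ∀ p ∈ g.arcs, ∀ w ∈ innA p, w ∉ g'.B :=
  fun p hp w hw => (h.nis p hp w hw).not_mem h'.njs

/-- **I-JY-JE** -/
theorem TyJY.inner_JE (h : TyJY F g) (h' : TyJE R F' g') : ∀ p ∈ g.arcs, ∀ w ∈ innA p, w ∉ g'.B :=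
  fun p hp w hw => (h.nis p hp w hw).not_mem h'.njs

/-- **I-J5-JE** -/
theorem TyJ5.inner_JE (h : TyJ5 F g) (h' : TyJE R F' g') : ∀ p ∈ g.arcs, ∀ w ∈ innA p, w ∉ g'.B :=
  fun p hp w hw => (h.nis p hp w hw).not_mem h'.njs

/-- **I-J4-JE** -/
theorem TyJ4.inner_JE (h : TyJ4 F g) (h' : TyJE R F' g') : ∀ p ∈ g.arcs, ∀ w ∈ innA p, w ∉ g'.B :=
  fun p hp w hw => (h.nis p hp w hw).not_mem h'.njs

/-! ### J1 -/

theorem app_ch_D2 (hs : 3 ≤ s) (hc : 2 ≤ c) {x : X k} (hx : x.1 = (app (ch s) (ch c) △ .nil) △ .nil) :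
    D2 (OddHC.wd (TT x).1) := by
  have c1 : (OddHC.cont (app (ch s) (ch c))).count 1 = 0 := by
    rw [cont_app, Multiset.count_add, count_ch (by omega), count_ch hc]
  have h3 : 3 ≤ Tsq.ht (app (ch s) (ch c)) := by
    rw [H1.ht_eq, ht_app, ch_ht]; omega
  exact inner_D2 (B := .nil) (S := .nil) (Gd_of (app_ch_ne (by omega) _) c1).1 h3 9 (by simp) hx

/-- the inner words of J1 over `[s][c]`, right: `NIS` or without single runs -/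
theorem J1A.nis2 (hs : 3 ≤ s) (hc : 2 ≤ c) (hA : J.J1A s c g) : ∀ p ∈ g.arcs, ∀ w ∈ innA p,
    NIS w ∨ D2 (OddHC.wd w.1) := by
  intro p hp w hw
  rcases J1A.nis hs hc hA p hp w hw with h1 | ⟨x, hx, rfl⟩
  · exact Or.inl h1
  · exact Or.inr (app_ch_D2 hs hc hx)

theorem J1MA.nis2 (hs : 3 ≤ s) (hc : 2 ≤ c) (hA : J.J1MA s c g) : ∀ p ∈ g.arcs, ∀ w ∈ innA p,
    NIS w ∨ D2 (OddHC.wd w.1) := by
  intro p hp w hw
  rcases J1MA.nis hs hc hA p hp w hw with h1 | ⟨x, hx, rfl⟩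
  · exact Or.inl h1
  · right
    apply D2.mir
    have e : Tsq.mir (Tsq.mirX (TT x)).1 = (TT x).1 := Tsq.mir_mir _
    rw [e]
    exact app_ch_D2 hs hc hx

/-- **I-J1-JE**, right and mirrored J1 over `[s][c]`: the row I-J1-JV is enough -/
theorem J1s.inner_JE (hs : 3 ≤ s) (hc : 2 ≤ c) (hA : J.J1A s c g ∨ J.J1MA s c g) (h' : TyJE R F' g')
    (hJ : ∀ F1 g1, Is9 .nil .nil R F1 g1 → F1 ⊆ F' → ∀ p ∈ g.arcs, ∀ w ∈ innA p, w ∉ g1.B) :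
    ∀ p ∈ g.arcs, ∀ w ∈ innA p, w ∉ g'.B := fun p hp w hw =>
  h'.not_of2 (fun F1 g1 e1 e2 => hJ F1 g1 e1 e2 p hp w hw)
    (hA.elim (fun h => J1A.nis2 hs hc h p hp w hw) (fun h => J1MA.nis2 hs hc h p hp w hw))

/-! ### R3, S3 -/

/-- **I-R3-JE**: the row I-R3-JV is enough -/
theorem TyR3.inner_JE (h : TyR3 F g) (h' : TyJE R F' g')
    (hJ : ∀ F1 g1, Is9 .nil .nil R F1 g1 → F1 ⊆ F' → ∀ p ∈ g.arcs, ∀ w ∈ innA p, w ∉ g1.B) :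
    ∀ p ∈ g.arcs, ∀ w ∈ innA p, w ∉ g'.B := fun p hp w hw =>
  h'.not_of (fun F1 g1 e1 e2 => hJ F1 g1 e1 e2 p hp w hw) (h.inn13 p hp w hw).1.nbd

/-- **I-S3-JE**: the row I-S3-JV is enough -/
theorem TyS3.inner_JE (h : TyS3 F g) (h' : TyJE R F' g')
    (hJ : ∀ F1 g1, Is9 .nil .nil R F1 g1 → F1 ⊆ F' → ∀ p ∈ g.arcs, ∀ w ∈ innA p, w ∉ g1.B) :
    ∀ p ∈ g.arcs, ∀ w ∈ innA p, w ∉ g'.B := fun p hp w hw =>
  h'.not_of (fun F1 g1 e1 e2 => hJ F1 g1 e1 e2 p hp w hw) (h.inn13 p hp w hw).1.nbd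

/-! ### JE against A0 and against words with `NJS` -/

/-- **I-JE-A0** -/
theorem TyJE.inner_A0 (h : TyJE R F g) (h' : TyA0 F' g')
    (hz : ∀ x : X k, x.1 = (R △ .nil) △ .nil → TT x ∉ g'.B) : ∀ p ∈ g.arcs, ∀ w ∈ innA p, w ∉ g'.B :=
  h.inner_of9 fun _ _ e _ => e.inner_A0 h.gd h.h3 h' hz

/-- a set of words with `NJS` can only meet the inner word `T(((R)))` -/
theorem TyJE.inner_njs (h : TyJE R F g) {B : Finset (X k)} (hB : ∀ v ∈ B, NJS v)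
    (hT : ∀ x : X k, x.1 = (R △ .nil) △ .nil → TT x ∉ B) : ∀ p ∈ g.arcs, ∀ w ∈ innA p, w ∉ B :=
  h.inner_of9 fun _ _ e _ => e.inner_njs h.h3 h.one hB hT

end Pool.OddHC
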