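import Pool.Agent.Work.MP_8f87b2_h25.JETy
import Pool.Agent.Work.MP_8f87b2_h10.JVT
import Pool.Agent.Work.MP_8f87b2_h10.JVA
import Pool.Agent.Work.MP_8f87b2_h10.EdJ
import Pool.Agent.Work.MP_8f87b2_h21.JVi
import Pool.Agent.Work.MP_8f87b2_h37.JVi3

/-!
# MP_8f87b2_co: inner words of type JE against the other types

All rows are the rows of JV (`Is9`): the inner words of `TyJE R` are those of `Is9 nil nil R`.
-/

set_option autoImplicit false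

namespace Pool.OddHC

open Finset Equiv BinaryTree Pool.Agent.Work.MP_8f87b2_co

open J3 JVI SRun H1

variable {k : ℕ} {R R' S : BinaryTree Unit} {F F' : Set (Cyc k)} {g g' : DG k}

theorem TyJE.two_le (h : TyJE R F g) : ∀ x ∈ cont R, 2 ≤ x := JV.two_le h.one

/-- **I-JE-T** -/
theorem TyJE.inner_T (h : TyJE R F g) (h4 : 4 ≤ OddHC.ht R) (h' : TyT F' g')
    (hle : ∀ c ∈ F, ∀ d ∈ F', htc c ≤ htc d) : ∀ p ∈ g.arcs, ∀ w ∈ innA p, w ∉ g'.B :=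
  h.inner_of9 fun _ _ e e2 => e.inner_T h4 h' (fun c hc d hd => hle c (e2 hc) d hd)

/-- **I-JE-A** -/
theorem TyJE.inner_A (h : TyJE R F g) (h' : TyA F' g') (hm : ∀ c ∈ F', 1 ≤ (contc c).count 1)
    (hc : (∀ c ∈ F', htc c = 4) → 4 ≤ OddHC.ht R ∧ ∀ a b, H1.FM R a b → a ≠ [true, true, true] ∧
      ∀ v, b ≠ false :: false :: true :: true :: v) :
    ∀ p ∈ g.arcs, ∀ w ∈ innA p, w ∉ g'.B :=
  h.inner_of9 fun _ _ e _ => e.inner_A h.gd h.h3 h' hm hc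

/-- **I-JE-Ed** -/
theorem TyJE.inner_Ed (h : TyJE R F g) (h2 : C23 R) (h4 : 4 ≤ OddHC.ht R)
    (h' : TyEd F' g') : ∀ p ∈ g.arcs, ∀ w ∈ innA p, w ∉ g'.B :=
  h.inner_of9 fun _ _ e _ => e.inner_Ed h2 h4 h'

/-- **I-JE-JG** (all one soliton gadgets), general -/
theorem TyJE.inner_JG (h : TyJE R F g) (h2 : 2 ≤ J.c3 (OddHC.cont R))
    (hT : 3 ∈ OddHC.cont R → J.c3 (OddHC.cont R) = 2 → ∀ x : X k, x.1 = (R △ .nil) △ .nil →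
      ∀ (t : ℕ) (Y : BinaryTree Unit), (TT x).1 ≠ (J.b2 (t + 1) △ Y) △ .nil)
    {n : ℕ} (hn : 1 ≤ n) {B : Finset (X k)} {P U M : Set (ZMod (2 * n + 1) → ℕ)}
    (h' : J.JG n B P U M) : ∀ p ∈ g.arcs, ∀ w ∈ innA p, w ∉ B :=
  h.inner_of9 fun _ _ e _ => e.inner_JG h.h3 h.one h2 hT hn h'

/-- **I-JE-JG**, START -/
theorem TyJE.inner_JG_start (h : TyJE R F g) (h2 : 2 ≤ J.c3 (OddHC.cont R))
    (hs : 3 ∈ OddHC.cont R → ∃ Y, R = H1.ch 2 △ Y ∧ 3 ≤ OddHC.ht Y)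
    {n : ℕ} (hn : 1 ≤ n) {B : Finset (X k)} {P U M : Set (ZMod (2 * n + 1) → ℕ)}
    (h' : J.JG n B P U M) : ∀ p ∈ g.arcs, ∀ w ∈ innA p, w ∉ B :=
  h.inner_of9 fun _ _ e _ => e.inner_JG_start h.h3 h.one h2 hs hn h'

/-- **I-JE-JG**, rule TE -/
theorem TyJE.inner_JG_te (h : TyJE R F g) (h2 : 2 ≤ J.c3 (OddHC.cont R)) (hT : JVI.TE R)
    {n : ℕ} (hn : 1 ≤ n) {B : Finset (X k)} {P U M : Set (ZMod (2 * n + 1) → ℕ)}
    (h' : J.JG n B P U M) : ∀ p ∈ g.arcs, ∀ w ∈ innA p, w ∉ B :=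
  h.inner_of9 fun _ _ e _ => e.inner_JG_te h.h3 h.one h2 hT hn h'

/-- **I-JE-H**, rule TE -/
theorem TyJE.inner_H_te (h : TyJE R F g) (h2 : 2 ≤ J.c3 (OddHC.cont R)) (hT : JVI.TE R)
    (h' : Hole2.TyH F' g') : ∀ p ∈ g.arcs, ∀ w ∈ innA p, w ∉ g'.B :=
  h.inner_of9 fun _ _ e _ => e.inner_H_te h.h3 h.one h2 hT h'

/-- **I-JE-JV**: an inner word of JE which is a word of JV at `S'` is `T(((R)))`, and the word is `S'(())`, `(())S'`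
(`S'` two higher) or `((S'))`, `(X')` (same height) -/
theorem TyJE.inner_JV (h : TyJE R F g) (h' : Is9 .nil .nil S F' g') (h3' : 3 ≤ OddHC.ht S)
    (h1' : (OddHC.cont S).count 1 = 0) :
    ∀ p ∈ g.arcs, ∀ w ∈ innA p, w ∈ g'.B → w = TT p.1 ∧ p.1.1 = (R △ .nil) △ .nil ∧
      ((OddHC.ht S = OddHC.ht R + 2 ∧ (w.1 = app S ((.nil △ .nil) △ .nil) ∨
        w.1 = (.nil △ .nil) △ S)) ∨
      (OddHC.ht S = OddHC.ht R ∧ (w.1 = (S △ .nil) △ .nil ∨ w.1 = xT S △ .nil))) := by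
  obtain ⟨F1, g1, h1, h2, _, h4⟩ := h.toIs9
  intro p hp
  exact h1.inner_JV h' h.h3 h3' h.one h1' p (by rw [h4]; exact hp)

/-- **I-JE-JV, rule TE** -/
theorem TyJE.inner_JV_te (h : TyJE R F g) (h' : Is9 .nil .nil S F' g') (h3' : 3 ≤ OddHC.ht S)
    (h1' : (OddHC.cont S).count 1 = 0) (hT : JVI.TE R) (hT' : JVI.TE S) :
    ∀ p ∈ g.arcs, ∀ w ∈ innA p, w ∉ g'.B :=
  h.inner_of9 fun _ _ e _ => e.inner_JV_te h' h.h3 h3' h.one h1' hT hT'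

/-- **I-JV-JE, rule TE** -/
theorem Is9.inner_JE_te (h : Is9 .nil .nil S F g) (h3 : 3 ≤ OddHC.ht S)
    (h1 : (OddHC.cont S).count 1 = 0) (h' : TyJE R F' g') (hT : JVI.TE S) (hT' : JVI.TE R) :
    ∀ p ∈ g.arcs, ∀ w ∈ innA p, w ∉ g'.B :=
  Is9.inner_JE (Or.inl h) h3 h1 h' fun _ _ e _ => h.inner_JV_te e h3 h'.h3 h1 h'.one hT hT'

/-- **I-JE-JE, rule TE** -/
theorem TyJE.inner_JE_te (h : TyJE R F g) (h' : TyJE R' F' g') (hT : JVI.TE R) (hT' : JVI.TE R') :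
    ∀ p ∈ g.arcs, ∀ w ∈ innA p, w ∉ g'.B :=
  h.inner_JE h' fun _ _ _ _ e _ e' _ => e.inner_JV_te e' h.h3 h'.h3 h.one h'.one hT hT'

/-- **I-JE-L** -/
theorem TyJE.inner_L (h : TyJE R F g) {a b : ℕ} {Y : BinaryTree Unit}
    (h' : IsTri (lp (b + 1)) Y (lp (a + 1)) F' g') : ∀ p ∈ g.arcs, ∀ w ∈ innA p, w ∉ g'.B :=
  h.inner_of9 fun _ _ e _ => e.inner_L h.two_le h.h3 h'

theorem TyJE.inner_TyL (h : TyJE R F g) (h' : TyL F' g') : ∀ p ∈ g.arcs, ∀ w ∈ innA p, w ∉ g'.B :=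
  h.inner_of9 fun _ _ e _ => e.inner_TyL h.two_le h.h3 h'

/-- **I-JE-E**: E triples whose host is not an inner word -/
theorem TyJE.inner_E' (h : TyJE R F g) {Y : BinaryTree Unit} (h' : IsTri .nil Y .nil F' g')
    (hY : ∀ p ∈ g.arcs, ∀ w ∈ innA p, w.1 ≠ Y △ .nil) : ∀ p ∈ g.arcs, ∀ w ∈ innA p, w ∉ g'.B := by
  obtain ⟨F1, g1, h1, h2, _, h4⟩ := h.toIs9
  intro p hp
  exact h1.inner_E' h.two_le h.h3 h' (fun q hq => hY q (by rw [← h4]; exact hq)) p (by rw [h4]; exact hp)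

/-- **I-JE-E**, rule TE -/
theorem TyJE.inner_E (h : TyJE R F g) (hT : TE R) (h' : TyE F' g') :
    ∀ p ∈ g.arcs, ∀ w ∈ innA p, w ∉ g'.B :=
  h.inner_of9 fun _ _ e _ => e.inner_E h.two_le h.h3 hT h'

/-- **I-JE-S5** -/
theorem TyJE.inner_S5 (h : TyJE R F g) (h' : TyS5 F' g') : ∀ p ∈ g.arcs, ∀ w ∈ innA p, w ∉ g'.B :=
  h.inner_of9 fun _ _ e _ => e.inner_S5 h.two_le h.h3 h'

/-- **I-JE-K'** -/
theorem TyJE.inner_Km (h : TyJE R F g) {P : BinaryTree Unit} {m : ℕ} (hP : hg 2 P)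
    (h' : TyK' (app P (lp m)) F' g') (hn : m = 0 → N3 k R ((.nil △ .nil) △ P)) :
    ∀ p ∈ g.arcs, ∀ w ∈ innA p, w ∉ g'.B :=
  h.inner_of9 fun _ _ e _ => e.inner_Km h.two_le h.h3 hP h' hn

/-- **I-JE-K**, `P () Z` -/
theorem TyJE.inner_K1 (h : TyJE R F g) {P Z : BinaryTree Unit} (hP : hg 2 P)
    (h' : TyK (app P (.nil △ Z)) F' g') : ∀ p ∈ g.arcs, ∀ w ∈ innA p, w ∉ g'.B :=
  h.inner_of9 fun _ _ e _ => e.inner_K1 h.two_le h.h3 hP h'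

/-- **I-JE-K**, `P` without part 1 -/
theorem TyJE.inner_K2 (h : TyJE R F g) {P : BinaryTree Unit} (hP : hg 2 P) (h' : TyK P F' g')
    (hn : N3 k R (app P ((.nil △ .nil) △ .nil))) : ∀ p ∈ g.arcs, ∀ w ∈ innA p, w ∉ g'.B :=
  h.inner_of9 fun _ _ e _ => e.inner_K2 h.two_le h.h3 hP h' hn

/-- **I-JE-Cr** -/
theorem TyJE.inner_Cr (h : TyJE R F g) {P : BinaryTree Unit} {c m : ℕ} (hP : Gd P) (hc : 2 ≤ c)
    (h' : TyC c (app P (lp m)) F' g')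
    (hn : m = 0 → N3 k R (P △ ch c) ∧ N3 k R (app P (ch (c + 1)))) :
    ∀ p ∈ g.arcs, ∀ w ∈ innA p, w ∉ g'.B :=
  h.inner_of9 fun _ _ e _ => e.inner_Cr h.two_le h.h3 hP hc h' hn

/-- **I-JE-Cl** -/
theorem TyJE.inner_Cl (h : TyJE R F g) {P : BinaryTree Unit} {c m : ℕ} (hP : Gd P) (hc : 2 ≤ c)
    (h' : TyC' c (app P (lp m)) F' g')
    (hn : m = 0 → N3 k R (app (ch c) (P △ .nil)) ∧ N3 k R (ch c △ P)) :
    ∀ p ∈ g.arcs, ∀ w ∈ innA p, w ∉ g'.B :=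
  h.inner_of9 fun _ _ e _ => e.inner_Cl h.two_le h.h3 hP hc h' hn

/-- **I-JE-Cr**, `T R` does not end with `[c]`, `[c+1]` -/
theorem TyJE.inner_Cr_NE (h : TyJE R F g) {P : BinaryTree Unit} {c m : ℕ} (hP : Gd P) (hc : 2 ≤ c)
    (hcP : c + 1 ≤ OddHC.ht P) (h' : TyC c (app P (lp m)) F' g') (hn : m = 0 → NE R c ∧ NE R (c + 1)) :
    ∀ p ∈ g.arcs, ∀ w ∈ innA p, w ∉ g'.B :=
  h.inner_of9 fun _ _ e _ => e.inner_Cr_NE h.two_le h.h3 hP hc hcP h' hn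

/-- **I-JE-Cr**, the content link over `[s]` -/
theorem TyJE.inner_Cr_two (h : TyJE R F g) {s c m : ℕ} (hc : 2 ≤ c) (hs : c + 1 ≤ s)
    (h' : TyC c (app (ch s) (lp m)) F' g') (hn : m = 0 → NE2 R (s - 1) c ∧ NE2 R (s - 2) (c + 1)) :
    ∀ p ∈ g.arcs, ∀ w ∈ innA p, w ∉ g'.B :=
  h.inner_of9 fun _ _ e _ => e.inner_Cr_two h.two_le h.h3 hc hs h' hn

end Pool.OddHC
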