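import Pool.Agent.Work.MP_8f87b2_h25.MatIJV
import Pool.Agent.Work.MP_8f87b2_h25.JEIn2
import Pool.Agent.Work.MP_8f87b2_h25.JEOut

/-!
# MP_8f87b2_co: the inner words of `JE` against all types, and all types against `JE`

`TyJE R` has the arcs of a group `JV` over `R`, so all its inner rows are the rows of `JV`.
-/

set_option autoImplicit false

namespace Pool.OddHC

open Finset Equiv BinaryTree Pool.Agent.Work.MP_8f87b2_co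

namespace MW

variable {k : ℕ} {F F' : Set (Cyc k)} {g g' : DG k} {R : BinaryTree Unit}

theorem JES.ex (h : JES F g) : ∃ R, TyJE R F g := h

/-- the nine words -/
theorem toJZ (h : TyJE R F g) : ∃ F1 g1, JZ F1 g1 R ∧ F1 ⊆ F ∧ g1.arcs = g.arcs := by
  obtain ⟨F1, g1, h1, h2, _, h4⟩ := h.toIs9
  exact ⟨F1, g1, ⟨h.one, h.h3, h1⟩, h2, h4⟩

theorem NI.of_arcs {g1 : DG k} (e : g1.arcs = g.arcs) (h : NI g1 g') : NI g g' := by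
  unfold NI
  rw [← e]
  exact h

/-! ### JE against the plain types -/

/-- rule TE, or: the host of the E pair is not an inner word -/
def sI_JE_E (F F' : Set (Cyc k)) (g g' : DG k) : Prop :=
  (∃ R, TyJE R F g ∧ JVI.TE R) ∨
    ∃ Y, IsTri .nil Y .nil F' g' ∧ ∀ p ∈ g.arcs, ∀ w ∈ innA p, w.1 ≠ Y △ .nil

theorem i_JE_E (h : JES F g) (h' : TyE F' g') (hs : sI_JE_E F F' g g') : NI g g' := by
  rcases hs with ⟨R, hR, hT⟩ | ⟨Y, hY, hn⟩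
  · exact fun p hp w hw => hR.inner_E hT h' p hp w hw
  · obtain ⟨R, hR⟩ := h
    exact fun p hp w hw => hR.inner_E' hY hn p hp w hw

theorem i_JE_En (h : JES F g) (h' : TyEn F' g') (hs : sI_JE_E F F' g g') : NI g g' := i_JE_E h h'.toE hs

/-- parts 2 or 3 and height 4, or the side condition of `E` -/
def sI_JE_Ed (F F' : Set (Cyc k)) (g g' : DG k) : Prop :=
  (∃ R, TyJE R F g ∧ C23 R ∧ 4 ≤ OddHC.ht R) ∨ sI_JE_E F F' g g'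

theorem i_JE_Ed (h : JES F g) (h' : TyEd F' g') (hs : sI_JE_Ed F F' g g') : NI g g' := by
  rcases hs with ⟨R, hR, h2, h4⟩ | hs
  · exact fun p hp w hw => hR.inner_Ed h2 h4 h' p hp w hw
  · exact i_JE_E h h'.toE hs

theorem i_JE_L (h : JES F g) (h' : TyL F' g') : NI g g' := by
  obtain ⟨R, hR⟩ := h
  exact fun p hp w hw => hR.inner_TyL h' p hp w hw

/-- **K**: no K0 (and no sharp K4) is hit -/
def sI_JE_K (F F' : Set (Cyc k)) (g g' : DG k) : Prop :=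
  ∃ R, TyJE R F g ∧ ((TyKq F' g' ∧ JK0 k R) ∨
    ∃ S, KHp S ∧ TyK S F' g' ∧ (1 ∉ OddHC.cont S → JVI.N3 k R (app S ((.nil △ .nil) △ .nil))))

theorem i_JE_K (hs : sI_JE_K F F' g g') : NI g g' := by
  obtain ⟨R, hR, hs⟩ := hs
  obtain ⟨F1, g1, h1, h2, h3⟩ := toJZ hR
  exact NI.of_arcs h3 (i_JV_K (F := F1) ⟨R, h1, hs⟩)

/-- **K'**: no condition -/
theorem i_JE_Km (h : JES F g) (h' : KmS F' g') : NI g g' := by
  obtain ⟨R, hR⟩ := h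
  obtain ⟨F1, g1, h1, h2, h3⟩ := toJZ hR
  exact NI.of_arcs h3 (i_JV_Km h1.s h')

theorem i_JE_S5 (h : JES F g) (h' : TyS5l F' g') : NI g g' := by
  obtain ⟨R, hR⟩ := h
  exact fun p hp w hw => hR.inner_S5 h'.toS5 p hp w hw

/-- **Cr** -/
def sI_JE_Cr (F F' : Set (Cyc k)) (g g' : DG k) : Prop :=
  ∃ R c U, TyJE R F g ∧ 2 ≤ c ∧ TyC c U F' g' ∧ JCr k R c U

theorem i_JE_Cr (hs : sI_JE_Cr F F' g g') : NI g g' := by
  obtain ⟨R, c, U, hR, hc, h', hs⟩ := hs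
  obtain ⟨F1, g1, h1, h2, h3⟩ := toJZ hR
  exact NI.of_arcs h3 (i_JV_Cr (F := F1) ⟨R, c, U, h1, hc, h', hs⟩)

/-- **Cl** -/
def sI_JE_Cl (F F' : Set (Cyc k)) (g g' : DG k) : Prop :=
  ∃ R c U, TyJE R F g ∧ 2 ≤ c ∧ TyC' c U F' g' ∧ JCl k R c U

theorem i_JE_Cl (hs : sI_JE_Cl F F' g g') : NI g g' := by
  obtain ⟨R, c, U, hR, hc, h', hs⟩ := hs
  obtain ⟨F1, g1, h1, h2, h3⟩ := toJZ hR
  exact NI.of_arcs h3 (i_JV_Cl (F := F1) ⟨R, c, U, h1, hc, h', hs⟩)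

/-- **Dn**: right content link with `c = 2` -/
theorem i_JE_Dn (hs : sI_JE_Cr F F' g g') : NI g g' := i_JE_Cr hs

/-! ### JE against the windows -/

/-- **A** -/
def sI_JE_A (F F' : Set (Cyc k)) (g g' : DG k) : Prop :=
  (∀ c ∈ F', 1 ≤ (contc c).count 1) ∧ ∃ R, TyJE R F g ∧ ((∀ c ∈ F', htc c = 4) → 4 ≤ OddHC.ht R ∧
    ∀ a b, H1.FM R a b → a ≠ [true, true, true] ∧ ∀ v, b ≠ false :: false :: true :: true :: v)

theorem i_JE_A (h' : TyA F' g') (hs : sI_JE_A F F' g g') : NI g g' := by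
  obtain ⟨hm, R, hR, hc⟩ := hs
  exact fun p hp w hw => hR.inner_A h' hm hc p hp w hw

theorem i_JE_Ap (h' : TyAp F' g') (hs : sI_JE_A F F' g g') : NI g g' := i_JE_A h'.toA hs

theorem i_JE_Aq (h' : TyAq F' g') (hs : sI_JE_A F F' g g') : NI g g' := i_JE_A h'.toA hs

/-- **T** -/
theorem i_JE_T (h' : TyT F' g') (hle : ∀ c ∈ F, ∀ d ∈ F', htc c ≤ htc d)
    (hs : ∃ R, TyJE R F g ∧ 4 ≤ OddHC.ht R) : NI g g' := by
  obtain ⟨R, hR, h4⟩ := hs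
  exact fun p hp w hw => hR.inner_T h4 h' hle p hp w hw

/-- **J1** -/
def sI_JE_J1 (F : Set (Cyc k)) (g : DG k) : Prop :=
  ∃ R, TyJE R F g ∧ (∀ z ∈ F, contc z ≠ {3} + {k - 5} + {2}) ∧
    (OddHC.cont R = {3} + {k - 7} + {2} ∨ OddHC.cont R = {4} + {k - 6} → ¬ JV1.ExA (k - 5) 3 (wd R))

theorem i_JE_J1 (hk : 10 ≤ k) (h' : J1.TyJs F' g') (hs : sI_JE_J1 F g) : NI g g' := by
  obtain ⟨R, hR, hF, hx⟩ := hs
  obtain ⟨F1, g1, h1, h2, h3⟩ := toJZ hR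
  exact NI.of_arcs h3 (i_JV_J1 (F := F1) hk h' ⟨R, h1, fun z hz => hF z (h2 hz), hx⟩)

/-- **J4** -/
def sI_JE_J4 (F : Set (Cyc k)) (g : DG k) : Prop :=
  ∃ R, TyJE R F g ∧ (∀ z ∈ F, contc z ≠ {4} + {k - 6} + {2}) ∧
    (OddHC.cont R = {4} + {k - 8} + {2} ∨ OddHC.cont R = {5} + {k - 7} → ¬ JV1.ExB (k - 6) 4 (wd R))

theorem i_JE_J4 (hk : 12 ≤ k) (h' : J1.TyJt F' g') (hs : sI_JE_J4 F g) : NI g g' := by
  obtain ⟨R, hR, hF, hx⟩ := hs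
  obtain ⟨F1, g1, h1, h2, h3⟩ := toJZ hR
  exact NI.of_arcs h3 (i_JV_J4 (F := F1) hk h' ⟨R, h1, fun z hz => hF z (h2 hz), hx⟩)

/-- **JV** -/
def sI_JE_JV (F F' : Set (Cyc k)) (g g' : DG k) : Prop :=
  ∃ R Z', TyJE R F g ∧ JZ F' g' Z' ∧ ((JVI.TE R ∧ JVI.TE Z') ∨ (JV.NS R ∧ JV.NS Z') ∨
    ∀ x : X k, x.1 = (R △ .nil) △ .nil → TT x ∉ g'.B)

theorem i_JE_JV (hs : sI_JE_JV F F' g g') : NI g g' := by
  obtain ⟨R, Z', hR, hZ, hs⟩ := hs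
  obtain ⟨F1, g1, h1, h2, h3⟩ := toJZ hR
  exact NI.of_arcs h3 (i_JV_JV (F := F1) ⟨R, Z', h1, hZ, hs⟩)

/-- **JV against JE** -/
def sI_JV_JE (F F' : Set (Cyc k)) (g g' : DG k) : Prop :=
  ∃ Z R, JZ F g Z ∧ TyJE R F' g' ∧ ((JVI.TE Z ∧ JVI.TE R) ∨ (JV.NS Z ∧ JV.NS R) ∨
    ∀ x : X k, x.1 = (Z △ .nil) △ .nil → TT x ∉ g'.B)

theorem i_JV_JE (hs : sI_JV_JE F F' g g') : NI g g' := by
  obtain ⟨Z, R, ⟨h0, h3, h⟩, hR, ⟨hT, hT'⟩ | ⟨hT, hT'⟩ | hT⟩ := hs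
  · exact fun p hp w hw => Is9.inner_JE (Or.inl h) h3 h0 hR
      (fun F1 g1 e _ => h.inner_JV_te e h3 hR.h3 h0 hR.one hT hT') p hp w hw
  · exact fun p hp w hw => Is9.inner_JE (Or.inl h) h3 h0 hR
      (fun F1 g1 e _ => h.inner_JV_ns e h3 hR.h3 h0 hR.one hT hT') p hp w hw
  · exact fun p hp w hw => h.inner_njs h3 h0 hR.njs hT p hp w hw

/-- **JE against JE** -/
def sI_JE_JE (F F' : Set (Cyc k)) (g g' : DG k) : Prop :=
  ∃ R R', TyJE R F g ∧ TyJE R' F' g' ∧ ((JVI.TE R ∧ JVI.TE R') ∨ (JV.NS R ∧ JV.NS R') ∨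
    ∀ x : X k, x.1 = (R △ .nil) △ .nil → TT x ∉ g'.B)

theorem i_JE_JE (hs : sI_JE_JE F F' g g') : NI g g' := by
  obtain ⟨R, R', hR, hR', hs⟩ := hs
  obtain ⟨F1, g1, h1, h2, h3⟩ := toJZ hR
  exact NI.of_arcs h3 (i_JV_JE (F := F1) ⟨R, R', h1, hR', hs⟩)

/-- a group against itself -/
def sI_JE_self (F : Set (Cyc k)) (g : DG k) : Prop :=
  ∃ R, TyJE R F g ∧ (JVI.TE R ∨ JV.NS R ∨ ∀ x : X k, x.1 = (R △ .nil) △ .nil → TT x ∉ g.B)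

theorem i_JE_self (hs : sI_JE_self F g) : NI g g := by
  obtain ⟨R, h, hs⟩ := hs
  refine i_JE_JE ⟨R, R, h, h, ?_⟩
  rcases hs with h1 | h1 | h1
  · exact Or.inl ⟨h1, h1⟩
  · exact Or.inr (Or.inl ⟨h1, h1⟩)
  · exact Or.inr (Or.inr h1)

/-- **J3V** -/
theorem i_JE_J3V (hs : ∃ Z R B S, TyJE Z F g ∧ JVI.TE Z ∧ J3D F' g' R B S ∧ JV.NS R ∧ JV.NS (app B S)) :
    NI g g' := by
  obtain ⟨Z, R, B, S, hZ, hs⟩ := hs
  obtain ⟨F1, g1, h1, h2, h3⟩ := toJZ hZ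
  exact NI.of_arcs h3 (i_JV_J3V (F := F1) (F' := F') ⟨Z, R, B, S, h1, hs⟩)

/-! ### The windows against JE -/

theorem i_A_JE (h : TyA F g) (hle : ∀ c ∈ F, ∀ d ∈ F', htc c ≤ htc d)
    (hs : (∀ c ∈ F, 1 ∈ contc c) ∧ ∃ R, JVw R ∧ TyJE R F' g') : NI g g' := by
  obtain ⟨hb, R, h1, h2⟩ := hs
  exact fun p hp w hw => h.inner_JE h2 h1 hb hle hp w hw

theorem i_T_JE (h : TyT F g) (hs : ∃ R, JVw R ∧ TyJE R F' g') : NI g g' := by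
  obtain ⟨R, h1, h2⟩ := hs
  exact fun p hp w hw => h.inner_JE h2 h1 p hp w hw

theorem i_J1_JE (hk : 10 ≤ k) (h : J1.TyJs F g) (h' : JES F' g')
    (hs : ∀ z ∈ F', contc z ≠ {3} + {k - 5} + {2}) : NI g g' := by
  obtain ⟨R, hR⟩ := h'
  obtain ⟨s, rfl, _, hA⟩ := h.isJ1
  have e1 : s + 5 - 5 = s := by omega
  rw [e1] at hs
  exact fun p hp w hw => J1s.inner_JE (s := s) (c := 3) (by omega) (by norm_num) (Or.inl hA) hR
    (fun F1 g1 e e2 => J1A.inner_JV (by norm_num) (by omega) hA (Or.inl e) hR.h3 hR.one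
      (fun z hz => hs z (e2 hz))) p hp w hw

theorem i_J4_JE (hk : 12 ≤ k) (h : J1.TyJt F g) (h' : JES F' g')
    (hs : ∀ z ∈ F', contc z ≠ {4} + {k - 6} + {2}) : NI g g' := by
  obtain ⟨R, hR⟩ := h'
  obtain ⟨s, h5, rfl, _, hA⟩ := h.isJ1M
  have e1 : s + 6 - 6 = s := by omega
  rw [e1] at hs
  exact fun p hp w hw => J1s.inner_JE (s := s) (c := 4) (by omega) (by norm_num) (Or.inr hA) hR
    (fun F1 g1 e e2 => J1MA.inner_JV (by norm_num) (by omega) hA (Or.inl e) hR.h3 hR.one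
      (fun z hz => hs z (e2 hz))) p hp w hw

theorem i_J3V_JE (h : TyJ3V F g) (h' : JES F' g') : NI g g' := by
  obtain ⟨R, hR⟩ := h'
  exact fun p hp w hw => h.inner_JE hR p hp w hw

theorem i_R3_JE (h : TyR3 F g) (h' : JES F' g') (hle : ∀ c ∈ F, ∀ d ∈ F', htc c ≤ htc d) : NI g g' := by
  obtain ⟨R, hR⟩ := h'
  exact fun p hp w hw => h.inner_JE hR
    (fun F1 g1 e e2 => h.inner_JVb (Or.inl e) (Multiset.count_eq_zero.1 hR.one) hR.h3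
      (fun c hc d hd => hle c hc d (e2 hd))) p hp w hw

end MW

end Pool.OddHC
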