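import Pool.Agent.Work.MP_8f87b2_fin.MatN
import Pool.Agent.Work.MP_8f87b2_fin.MatJ
import Pool.Agent.Work.MP_8f87b2_h2.KHj
import Pool.Agent.Work.MP_8f87b2_h10.JVT
import Pool.Agent.Work.MP_8f87b2_h10.JVA0
import Pool.Agent.Work.MP_8f87b2_h21.JVns
import Pool.Agent.Work.MP_8f87b2_h20.S5Rot
import Pool.Agent.Work.MP_8f87b2_h29.DnRows
import Pool.Agent.Work.MP_8f87b2_h33.InJVm
import Pool.Agent.Work.MP_8f87b2_h52.R3JV
import Pool.Agent.Work.MP_8f87b2_h60.InAr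
import Pool.Agent.Work.MP_8f87b2_h77.JVJ1
import Pool.Agent.Work.MP_8f87b2_h77.JV3

/-!
# MP_8f87b2_co: the inner words of `JV` against all types, and all types against `JV`
-/

set_option autoImplicit false

namespace Pool.OddHC

open Finset Equiv BinaryTree Pool.Agent.Work.MP_8f87b2_co

/-! ### The mirrored gadget J1a over `[k-6][4]` -/

section J4

open J1 H1

variable {k : ℕ} {F : Set (Cyc k)} {g : DG k}

theorem J1.TyJt.isJ1M (h : J1.TyJt F g) : ∃ s, 5 ≤ s ∧ s + 6 = k ∧ (∀ w, w ∈ g.B → J.IsJ1M s 4 w.1) ∧ J.J1MA s 4 g := by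
  obtain ⟨n, w0, h1, h2, _, rfl, rfl⟩ := h
  refine ⟨n + 1, by omega, ?_, ?_, ?_⟩
  · have hk := h2.num
    rw [num_app', ch_num, ch_num] at hk
    omega
  · intro w hw
    obtain ⟨i, hi, rfl⟩ := mem_gadJAM.1 hw
    refine ⟨i, hi, ?_⟩
    rw [jY_val h2 w0 hi]
    exact Tsq.mir_mir _
  · intro p hp
    have hp' : p = (jY (app (ch (n + 1)) (ch 4)) (ch 4) (ch (n + 1)) w0 11, jY (app (ch (n + 1)) (ch 4)) (ch 4) (ch (n + 1)) w0 1) ∨
      p = (jY (app (ch (n + 1)) (ch 4)) (ch 4) (ch (n + 1)) w0 12, jY (app (ch (n + 1)) (ch 4)) (ch 4) (ch (n + 1)) w0 3) ∨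
      p = (jY (app (ch (n + 1)) (ch 4)) (ch 4) (ch (n + 1)) w0 15, jY (app (ch (n + 1)) (ch 4)) (ch 4) (ch (n + 1)) w0 6) ∨
      p = (jY (app (ch (n + 1)) (ch 4)) (ch 4) (ch (n + 1)) w0 14, jY (app (ch (n + 1)) (ch 4)) (ch 4) (ch (n + 1)) w0 8) ∨
      p = (jY (app (ch (n + 1)) (ch 4)) (ch 4) (ch (n + 1)) w0 17, jY (app (ch (n + 1)) (ch 4)) (ch 4) (ch (n + 1)) w0 9) := hp
    have key : ∀ i, i < 20 → Tsq.mir (jY (app (ch (n + 1)) (ch 4)) (ch 4) (ch (n + 1)) w0 i).1 = J.j1w (n + 1) 4 i := by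
      intro i hi
      rw [jY_val h2 w0 hi]
      exact Tsq.mir_mir _
    rcases hp' with e | e | e | e | e
    · rw [e]; exact ⟨jY_link h2 w0 (by simp), 1, by simp, key 1 (by norm_num)⟩
    · rw [e]; exact ⟨jY_link h2 w0 (by simp), 3, by simp, key 3 (by norm_num)⟩
    · rw [e]; exact ⟨jY_link h2 w0 (by simp), 6, by simp, key 6 (by norm_num)⟩
    · rw [e]; exact ⟨jY_link h2 w0 (by simp), 8, by simp, key 8 (by norm_num)⟩
    · rw [e]; exact ⟨jY_link h2 w0 (by simp), 9, by simp, key 9 (by norm_num)⟩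

end J4

namespace MW

variable {k : ℕ} {F F' : Set (Cyc k)} {g g' : DG k}

/-- the data of a group of type JV -/
def JZ (F : Set (Cyc k)) (g : DG k) (Z : BinaryTree Unit) : Prop :=
  (OddHC.cont Z).count 1 = 0 ∧ 3 ≤ OddHC.ht Z ∧ Is9 .nil .nil Z F g

theorem JVS.z (h : JVS F g) : ∃ Z, JZ F g Z := h

theorem JZ.s {Z : BinaryTree Unit} (h : JZ F g Z) : JVS F g := ⟨Z, h⟩

theorem JZ.two {Z : BinaryTree Unit} (h : JZ F g Z) : ∀ x ∈ OddHC.cont Z, 2 ≤ x := JV.two_le h.1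

/-! ### JV against the plain types -/

/-- rule TE, or: the host of the E pair is not an inner word -/
def sI_JV_E (F F' : Set (Cyc k)) (g g' : DG k) : Prop :=
  (∃ Z, JZ F g Z ∧ JVI.TE Z) ∨
    ∃ Y, IsTri .nil Y .nil F' g' ∧ ∀ p ∈ g.arcs, ∀ w ∈ innA p, w.1 ≠ Y △ .nil

theorem i_JV_E (h : JVS F g) (h' : TyE F' g') (hs : sI_JV_E F F' g g') : NI g g' := by
  rcases hs with ⟨Z, hZ, hT⟩ | ⟨Y, hY, hn⟩
  · exact fun p hp w hw => hZ.2.2.inner_E hZ.two hZ.2.1 hT h' p hp w hw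
  · obtain ⟨Z, hZ⟩ := h.z
    exact fun p hp w hw => hZ.2.2.inner_E' hZ.two hZ.2.1 hY hn p hp w hw

theorem i_JV_En (h : JVS F g) (h' : TyEn F' g') (hs : sI_JV_E F F' g g') : NI g g' := i_JV_E h h'.toE hs

/-- parts 2 or 3 and height 4, or the side condition of `E` -/
def sI_JV_Ed (F F' : Set (Cyc k)) (g g' : DG k) : Prop :=
  (∃ Z, JZ F g Z ∧ C23 Z ∧ 4 ≤ OddHC.ht Z) ∨ sI_JV_E F F' g g'

theorem i_JV_Ed (h : JVS F g) (h' : TyEd F' g') (hs : sI_JV_Ed F F' g g') : NI g g' := by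
  rcases hs with ⟨Z, hZ, h2, h4⟩ | hs
  · exact fun p hp w hw => hZ.2.2.inner_Ed h2 h4 h' p hp w hw
  · exact i_JV_E h h'.toE hs

theorem i_JV_L (h : JVS F g) (h' : TyL F' g') : NI g g' := by
  obtain ⟨Z, hZ⟩ := h.z
  exact fun p hp w hw => hZ.2.2.inner_TyL hZ.two hZ.2.1 h' p hp w hw

/-- **K**: no K0 (and no sharp K4) is hit -/
def sI_JV_K (F F' : Set (Cyc k)) (g g' : DG k) : Prop :=
  ∃ Z, JZ F g Z ∧ ((TyKq F' g' ∧ JK0 k Z) ∨
    ∃ S, KHp S ∧ TyK S F' g' ∧ (1 ∉ OddHC.cont S → JVI.N3 k Z (app S ((.nil △ .nil) △ .nil))))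

theorem i_JV_K (hs : sI_JV_K F F' g g') : NI g g' := by
  obtain ⟨Z, ⟨h0, h3, h⟩, ⟨hK, hJ⟩ | ⟨S, hS, hK, hn⟩⟩ := hs
  · exact fun p hp w hw => h.inner_Kq (JV.two_le h0) h3 hJ hK p hp w hw
  have h1 := JV.two_le h0
  have hg2 : ∀ {t : BinaryTree Unit}, H1.hv t → H1.hg 2 t := fun ht =>
    H1.hg_of_cont (by omega) fun x hx => le_trans (by omega) (hv_part ht x hx)
  rcases hS with hS | hS | hS | hS | hS | hS
  · obtain ⟨S1, q, rfl, hS1, hne, hmin⟩ := id hS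
    refine fun p hp w hw => h.inner_K2 h1 h3 (H1.hg_of_cont (by omega) fun x hx =>
      le_trans (by omega) (hmin x hx)) hK (hn ?_) p hp w hw
    intro h5
    have := hmin 1 h5
    omega
  · obtain ⟨S1, q, rfl, hS1, hne⟩ := hS
    exact fun p hp w hw => h.inner_K1 h1 h3 (hg2 hS1) hK p hp w hw
  · obtain ⟨S0, m, rfl, hS0, hne⟩ := hS
    exact fun p hp w hw => h.inner_K1 (Z := lp (m + 1)) h1 h3 (hg2 hS0) hK p hp w hw
  · obtain ⟨S1, q, rfl, hS1, hne⟩ := hS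
    exact fun p hp w hw => h.inner_K1 h1 h3 (hg2 hS1) hK p hp w hw
  · obtain ⟨S1, A, m, rfl, hS1, hA⟩ := hS
    intro p hp x hx hw
    have hs := h.sh h1 h3 hp hx
    have hc := h.count1_inn h1 h3 hp hx
    rcases IsTri.words hK _ hw with e | ⟨_, e | e⟩
    · exact hs.not_last (Y := _ △ .nil) e
    · have e2 : cont x.1 = cont (app (app S1 (app A (lp 1) △ lp (m + 1))) ((.nil △ .nil) △ .nil)) := by
        rw [e]; rfl
      rw [cont_app, cont_app] at e2
      have e3 : 2 ≤ (cont x.1).count 1 := by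
        rw [e2, Multiset.count_add, Multiset.count_add]
        have e5 : ∃ x ∈ cont A, 2 ≤ x := by
          rcases hA with ⟨_, rfl⟩ | ⟨hA, hA0⟩
          · exact ⟨2, by rw [cont_pc]; exact Multiset.mem_singleton_self 2, le_refl 2⟩
          · obtain ⟨y, hy⟩ := Multiset.exists_mem_of_ne_zero (s := cont A) (fun h9 => hA0 (cont_eq_zero.1 h9))
            exact ⟨y, hy, le_trans (by omega) (hv_part hA y hy)⟩
        have e4 := count1_K3 e5 m
        omega
      omega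
    · exact hs.not_first (Y := .nil △ _) e
  · obtain ⟨S0, a, rfl, hS0, hne⟩ := hS
    refine fun p hp w hw => h.inner_K2 h1 h3 ?_ hK (hn ?_) p hp w hw
    · refine H1.hg_of_cont (by omega) fun x hx => ?_
      rw [cont_app, Multiset.mem_add] at hx
      rcases hx with hx | hx
      · exact le_trans (by omega) (hv_part hS0 x hx)
      · rw [cont_lv2, cont_nil, add_zero, Multiset.mem_replicate] at hx
        omega
    · intro hx
      rw [cont_app, Multiset.mem_add] at hx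
      rcases hx with hx | hx
      · have := hv_part hS0 1 hx
        omega
      · rw [cont_lv2, cont_nil, add_zero, Multiset.mem_replicate] at hx
        omega

theorem cont_two_km {A : BinaryTree Unit} (n : ℕ) :
    cont (app A (.nil △ .nil) △ lp n) = raise (cont A + {1}) + Multiset.replicate n 1 := by
  rw [cont_node, cont_app, cont_lp_kh]
  rfl

/-- **K'**: no condition -/
theorem i_JV_Km (h : JVS F g) (h' : KmS F' g') : NI g g' := by
  obtain ⟨Z, h0, h3, h⟩ := h.z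
  obtain ⟨S, h2, -, -, -, ⟨V, A, n, hA, rfl⟩, hK⟩ := h'
  have h1 := JV.two_le h0
  intro p hp x hx hw
  have hs := h.sh h1 h3 hp hx
  have hc := h.count1_inn h1 h3 hp hx
  rcases IsTri.words hK _ hw with e | ⟨_, e | e⟩
  · exact hs.not_first (Y := _ △ .nil) e
  · have e1 : w1 (app V (app A (.nil △ .nil) △ lp n)) .nil (.nil △ .nil) =
        app (app (app V (app A (.nil △ .nil) △ lp n)) (.nil △ .nil)) (.nil △ .nil) :=
      (H1.app_assoc _ (.nil △ .nil) (.nil △ .nil)).symm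
    rw [e1] at e
    exact hs.not_last e
  · have e1 : w1 .nil (.nil △ .nil) (app V (app A (.nil △ .nil) △ lp n)) =
        app ((.nil △ .nil) △ V) (app A (.nil △ .nil) △ lp n) := rfl
    rw [e1] at e
    have e4 : cont ((.nil △ .nil) △ V : BinaryTree Unit) = {2} + cont V := rfl
    have e5 : ({2} : Multiset ℕ).count 1 = 0 := by decide
    have e2 : cont x.1 = {2} + cont V + (raise (cont A + {1}) + Multiset.replicate n 1) := by
      rw [e, cont_app, cont_two_km, e4]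
    rw [e2, Multiset.count_add, Multiset.count_add, Multiset.count_add, Multiset.count_replicate_self, e5] at hc
    have hcA : cont A ≠ 0 := fun h9 => hA (cont_eq_zero.1 h9)
    by_cases hm : 2 ≤ (cont A).sup
    · have hsup : (cont A + {1}).sup = (cont A).sup := by
        rw [Multiset.sup_add, Multiset.sup_singleton]
        exact max_eq_left (by omega)
      have e3 : (raise (cont A + {1})).count 1 = (cont A).count 1 + 1 := by
        rw [count_raise 1 (by rw [hsup]; omega) (by rw [hsup]; omega), Multiset.count_add,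
          Multiset.count_singleton_self]
      rw [e3] at hc
      have hV : (cont V).count 1 = 0 := by omega
      have hA1 : (cont A).count 1 = 0 := by omega
      have hn : n = 0 := by omega
      subst hn
      refine hs.not_bead2 (P := (.nil △ .nil) △ V) (Q := A) (Z := .nil) (Y := .nil) ?_ ?_ e
      · exact ⟨Or.inl rfl, H1.hg_of_cont le_rfl (JV.two_le hV)⟩
      · exact ⟨H1.hg_of_cont le_rfl (JV.two_le hA1), hA⟩
    · have hAl := S5.lp_of_ht A (by rw [OddHC.ht_eq]; omega)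
      obtain ⟨m, hm1⟩ : ∃ m, A.numNodes = m + 1 := ⟨A.numNodes - 1, by
        have : A.numNodes ≠ 0 := fun h9 => hA (by rw [hAl, h9]; rfl)
        omega⟩
      rw [hm1] at hAl
      obtain rfl : A = lp (m + 1) := hAl
      have e3 : raise (cont (lp (m + 1)) + {1}) = {2} + Multiset.replicate (m + 1) 1 := by
        rw [cont_lp_kh]
        have : (Multiset.replicate (m + 1) 1 + {1} : Multiset ℕ) = 1 ::ₘ Multiset.replicate (m + 1) 1 := by
          rw [add_comm]; rfl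
        rw [this]
        have hs1 : (1 ::ₘ Multiset.replicate (m + 1) 1 : Multiset ℕ).sup = 1 := by
          rw [Multiset.sup_cons]
          refine le_antisymm (sup_le le_rfl (Multiset.sup_le.2 fun y hy => ?_)) le_sup_left
          rw [Multiset.eq_of_mem_replicate hy]
        unfold raise
        rw [hs1, Multiset.erase_cons_head]
        rfl
      rw [e3, Multiset.count_add, e5, Multiset.count_replicate_self] at hc
      obtain rfl : m = 0 := by omega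
      obtain rfl : n = 0 := by omega
      have e6 : wd x.1 = (wd ((.nil △ .nil) △ V) ++ [true]) ++ [true, false, true, false, false] := by
        rw [e, wd_app]
        change wd _ ++ wd (app (lp 1) (.nil △ .nil) △ .nil) = _
        rw [show (app (lp 1) (.nil △ .nil) : BinaryTree Unit) = .nil △ (.nil △ .nil) from rfl]
        simp [wd]
      rcases hs.en with ⟨v, hv⟩ | ⟨v, hv⟩ <;> rw [e6] at hv <;>
        · have h5 := congrArg List.reverse hv
          simp at h5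

theorem i_JV_S5 (h : JVS F g) (h' : TyS5l F' g') : NI g g' := by
  obtain ⟨Z, hZ⟩ := h.z
  exact fun p hp w hw => hZ.2.2.inner_S5 hZ.two hZ.2.1 h'.toS5 p hp w hw

/-- a right content link which is not hit by `T(((Z)))`: either `R = P()Y` or the two equations are excluded -/
def JCr (k : ℕ) (Z : BinaryTree Unit) (c : ℕ) (R : BinaryTree Unit) : Prop :=
  (∃ P Y, SRun.Gd P ∧ R = app P (.nil △ Y)) ∨
    (SRun.Gd R ∧ JVI.N3 k Z (R △ H1.ch c) ∧ JVI.N3 k Z (app R (H1.ch (c + 1))))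

/-- the same for a left content link -/
def JCl (k : ℕ) (Z : BinaryTree Unit) (c : ℕ) (R : BinaryTree Unit) : Prop :=
  (∃ P Y, SRun.Gd P ∧ R = app P (.nil △ Y)) ∨
    (SRun.Gd R ∧ JVI.N3 k Z (app (H1.ch c) (R △ .nil)) ∧ JVI.N3 k Z (H1.ch c △ R))

/-- flat words without a bead in front -/
theorem fl_cases : ∀ {R : BinaryTree Unit}, H1.fl R → H1.fb R = false → R ≠ .nil →
    (∃ P Y, SRun.Gd P ∧ R = app P (.nil △ Y)) ∨ SRun.Gd R
  | .nil, _, _, h => absurd rfl h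
  | .node _ A X, h, hf, _ => by
    change (∃ P Y, SRun.Gd P ∧ A △ X = app P (.nil △ Y)) ∨ SRun.Gd (A △ X)
    obtain ⟨⟨n, hn⟩, hX⟩ : (∃ n, A = H1.ch n) ∧ H1.fl X := h
    have hA : A ≠ .nil := by
      rintro rfl
      exact absurd (show true = false from hf) (by decide)
    have hg1 : H1.hg 2 (A △ .nil) := by
      have : A △ .nil = H1.ch (n + 1) := by rw [hn]; rfl
      rw [this]
      refine hg_ch ?_
      rcases Nat.eq_zero_or_pos n with h0 | h0
      · rw [h0] at hn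
        exact absurd hn hA
      · omega
    have hg2 : SRun.Gd (A △ .nil) := ⟨hg1, by simp⟩
    by_cases h0 : X = .nil
    · subst h0
      exact Or.inr hg2
    by_cases h1 : H1.fb X = true
    · left
      cases X with
      | nil => exact absurd rfl h0
      | node _ C Y =>
        have hC : C = .nil := by
          cases C with
          | nil => rfl
          | node _ _ _ => exact absurd (show false = true from h1) (by decide)
        subst hC
        exact ⟨A △ .nil, Y, hg2, rfl⟩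
    · rcases fl_cases hX (by simpa using h1) h0 with ⟨P, Y, hP, e⟩ | hP
      · left
        refine ⟨A △ P, Y, ⟨⟨hg1.1, hP.hg⟩, by simp⟩, ?_⟩
        rw [e]
        rfl
      · exact Or.inr ⟨⟨hg1.1, hP.hg⟩, by simp⟩

/-- **Cr** -/
def sI_JV_Cr (F F' : Set (Cyc k)) (g g' : DG k) : Prop :=
  ∃ Z c R, JZ F g Z ∧ 2 ≤ c ∧ TyC c R F' g' ∧ JCr k Z c R

theorem i_JV_Cr (hs : sI_JV_Cr F F' g g') : NI g g' := by
  obtain ⟨Z, c, R, ⟨h0, h3, h⟩, hc, h', ⟨P, Y, hP, rfl⟩ | ⟨hR, n1, n2⟩⟩ := hs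
  · have h1 := JV.two_le h0
    intro p hp x hx hw
    have hs := h.sh h1 h3 hp hx
    rcases IsTri.words h' _ hw with e | ⟨_, e | e⟩
    · exact hs.not_bead2 (P := .nil) (Q := P) (Z := Y) (Y := H1.ch c) trivial hP e
    · have e1 : w1 (app P (.nil △ Y)) (H1.ch c) .nil = app P (.nil △ app Y (H1.ch (c + 1))) := by
        unfold w1
        rw [H1.app_assoc]
        rfl
      rw [e1] at e
      exact hs.not_bead hP.hg e
    · exact hs.not_bead (Z := app P (.nil △ Y)) (hg_ch hc) e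
  · refine fun p hp w hw => h.inner_Cr (F' := F') (P := R) (m := 0) (JV.two_le h0) h3 hR hc ?_ (fun _ => ⟨n1, n2⟩) p hp w hw
    rwa [show lp 0 = .nil from rfl, H1.app_nil]

/-- **Cl** -/
def sI_JV_Cl (F F' : Set (Cyc k)) (g g' : DG k) : Prop :=
  ∃ Z c R, JZ F g Z ∧ 2 ≤ c ∧ TyC' c R F' g' ∧ JCl k Z c R

theorem i_JV_Cl (hs : sI_JV_Cl F F' g g') : NI g g' := by
  obtain ⟨Z, c, R, ⟨h0, h3, h⟩, hc, h', ⟨P, Y, hP, rfl⟩ | ⟨hR, n1, n2⟩⟩ := hs
  · have h1 := JV.two_le h0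
    intro p hp x hx hw
    have hs := h.sh h1 h3 hp hx
    rcases IsTri.words h' _ hw with e | ⟨_, e | e⟩
    · exact hs.not_bead2 (Z := Y) (Y := .nil) (hg_ch hc) hP e
    · have e1 : w1 (app P (.nil △ Y)) .nil (H1.ch c) = app P (.nil △ app Y (.nil △ H1.ch c)) := by
        unfold w1
        rw [H1.app_assoc]
        rfl
      rw [e1] at e
      exact hs.not_bead hP.hg e
    · have e1 : w1 .nil (H1.ch c) (app P (.nil △ Y)) = app (H1.ch c △ P) (.nil △ Y) := rfl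
      rw [e1] at e
      have hP' : H1.hg 2 (H1.ch c △ P) := ⟨(hg_ch (c := c + 1) (by omega)).1, hP.hg⟩
      exact hs.not_bead hP' e
  · refine fun p hp w hw => h.inner_Cl (F' := F') (P := R) (m := 0) (JV.two_le h0) h3 hR hc ?_ (fun _ => ⟨n1, n2⟩) p hp w hw
    rwa [show lp 0 = .nil from rfl, H1.app_nil]

/-- **Dn**: right content link with `c = 2` -/
theorem i_JV_Dn (hs : sI_JV_Cr F F' g g') : NI g g' := i_JV_Cr hs

/-! ### JV against the windows -/

/-- **A** -/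
def sI_JV_A (F F' : Set (Cyc k)) (g g' : DG k) : Prop :=
  (∀ c ∈ F', 1 ≤ (contc c).count 1) ∧ ∃ Z, JZ F g Z ∧ ((∀ c ∈ F', htc c = 4) → 4 ≤ OddHC.ht Z ∧
    ∀ a b, H1.FM Z a b → a ≠ [true, true, true] ∧ ∀ v, b ≠ false :: false :: true :: true :: v)

theorem i_JV_A (h' : TyA F' g') (hs : sI_JV_A F F' g g') : NI g g' := by
  obtain ⟨hm, Z, ⟨h0, h3, h⟩, hc⟩ := hs
  exact fun p hp w hw => h.inner_A (JVI.gd (JV.two_le h0) h3) h3 h' hm hc p hp w hw

theorem i_JV_Ap (h' : TyAp F' g') (hs : sI_JV_A F F' g g') : NI g g' := i_JV_A h'.toA hs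

theorem i_JV_Aq (h' : TyAq F' g') (hs : sI_JV_A F F' g g') : NI g g' := i_JV_A h'.toA hs

/-- **T** -/
theorem i_JV_T (h' : TyT F' g') (hle : ∀ c ∈ F, ∀ d ∈ F', htc c ≤ htc d)
    (hs : ∃ Z, JZ F g Z ∧ 4 ≤ OddHC.ht Z) : NI g g' := by
  obtain ⟨Z, ⟨h0, h3, h⟩, h4⟩ := hs
  exact fun p hp w hw => h.inner_T h4 h' hle p hp w hw

/-- **J1** -/
def sI_JV_J1 (F : Set (Cyc k)) (g : DG k) : Prop :=
  ∃ Z, JZ F g Z ∧ (∀ z ∈ F, contc z ≠ {3} + {k - 5} + {2}) ∧
    (OddHC.cont Z = {3} + {k - 7} + {2} ∨ OddHC.cont Z = {4} + {k - 6} → ¬ JV1.ExA (k - 5) 3 (wd Z))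

theorem i_JV_J1 (hk : 10 ≤ k) (h' : J1.TyJs F' g') (hs : sI_JV_J1 F g) : NI g g' := by
  obtain ⟨Z, ⟨h0, h3, h⟩, hF, hx⟩ := hs
  exact fun p hp w hw => h.inner_Js hk h' h3 h0 hF hx p hp w hw

/-- **J4** -/
def sI_JV_J4 (F : Set (Cyc k)) (g : DG k) : Prop :=
  ∃ Z, JZ F g Z ∧ (∀ z ∈ F, contc z ≠ {4} + {k - 6} + {2}) ∧
    (OddHC.cont Z = {4} + {k - 8} + {2} ∨ OddHC.cont Z = {5} + {k - 7} → ¬ JV1.ExB (k - 6) 4 (wd Z))

theorem i_JV_J4 (hk : 12 ≤ k) (h' : J1.TyJt F' g') (hs : sI_JV_J4 F g) : NI g g' := by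
  obtain ⟨Z, ⟨h0, h3, h⟩, hF, hx⟩ := hs
  obtain ⟨s, h5, rfl, hB, _⟩ := h'.isJ1M
  have e1 : s + 6 - 6 = s := by omega
  have e2 : s + 6 - 8 = s - 2 := by omega
  have e3 : s + 6 - 7 = s - 1 := by omega
  rw [e1] at hF hx
  rw [e2, e3] at hx
  exact fun p hp w hw => h.inner_J1M (s := s) (c := 4) (by norm_num) (by omega) h3 h0 hF hx (hB) p hp w hw

/-- **JV** -/
def sI_JV_JV (F F' : Set (Cyc k)) (g g' : DG k) : Prop :=
  ∃ Z Z', JZ F g Z ∧ JZ F' g' Z' ∧ ((JVI.TE Z ∧ JVI.TE Z') ∨ (JV.NS Z ∧ JV.NS Z') ∨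
    ∀ x : X k, x.1 = (Z △ .nil) △ .nil → TT x ∉ g'.B)

theorem i_JV_JV (hs : sI_JV_JV F F' g g') : NI g g' := by
  obtain ⟨Z, Z', ⟨h0, h3, h⟩, ⟨h0', h3', h'⟩, ⟨hT, hT'⟩ | ⟨hT, hT'⟩ | hT⟩ := hs
  · exact fun p hp w hw => h.inner_JV_te h' h3 h3' h0 h0' hT hT' p hp w hw
  · exact fun p hp w hw => h.inner_JV_ns h' h3 h3' h0 h0' hT hT' p hp w hw
  · exact fun p hp w hw => h.inner_njs h3 h0 (h'.njs h3' h0') hT p hp w hw

/-- a group against itself -/
def sI_JV_self (F : Set (Cyc k)) (g : DG k) : Prop :=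
  ∃ Z, JZ F g Z ∧ (JVI.TE Z ∨ JV.NS Z ∨ ∀ x : X k, x.1 = (Z △ .nil) △ .nil → TT x ∉ g.B)

theorem i_JV_self (hs : sI_JV_self F g) : NI g g := by
  obtain ⟨Z, h, hs⟩ := hs
  refine i_JV_JV ⟨Z, Z, h, h, ?_⟩
  rcases hs with h1 | h1 | h1
  · exact Or.inl ⟨h1, h1⟩
  · exact Or.inr (Or.inl ⟨h1, h1⟩)
  · exact Or.inr (Or.inr h1)

/-- **J3V** -/
theorem i_JV_J3V (hs : ∃ Z R B S, JZ F g Z ∧ JVI.TE Z ∧ J3D F' g' R B S ∧ JV.NS R ∧ JV.NS (app B S)) : NI g g' := by
  obtain ⟨Z, R, B, S, ⟨h0, h3, h⟩, hT, ⟨w0, hd, rfl, rfl⟩, n1, n2⟩ := hs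
  exact fun p hp w hw => h.inner_J3V_te h3 h0 hT hd n1 n2 p hp w hw

/-! ### The windows against JV -/

theorem i_J4_JV (hk : 12 ≤ k) (h : J1.TyJt F g) (h' : JVS F' g')
    (hs : ∀ z ∈ F', contc z ≠ {4} + {k - 6} + {2}) : NI g g' := by
  obtain ⟨Z, h0, h3, h2⟩ := h'
  obtain ⟨s, h5, rfl, _, hA⟩ := h.isJ1M
  have e1 : s + 6 - 6 = s := by omega
  rw [e1] at hs
  exact fun p hp w hw => J1MA.inner_JV (s := s) (c := 4) (by norm_num) (by omega) hA (Or.inl h2) h3 h0 hs p hp w hw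

theorem i_J3V_JV (h : TyJ3V F g) (h' : JVS F' g') : NI g g' := by
  obtain ⟨Z, h0, h3, h2⟩ := h'
  exact fun p hp w hw => h.inner_JV (Or.inl h2) h3 h0 p hp w hw

end MW

end Pool.OddHC
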