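import Pool.Agent.Work.MP_8f87b2_h25.MatIJ2
import Pool.Agent.Work.MP_8f87b2_h50.RqJ2T
import Pool.Agent.Work.MP_8f87b2_h74.SqInT
import Pool.Agent.Work.MP_8f87b2_h90.InAJ2B

/-!
# MP_8f87b2_co: the inner words of the windows against `J2B`
-/

set_option autoImplicit false

namespace Pool.OddHC

open Finset Equiv BinaryTree Pool.Agent.Work.MP_8f87b2_co

namespace MW

open J3 SRun

variable {k : ℕ} {F F' : Set (Cyc k)} {g g' : DG k}

theorem J2X.sqw (h : J2X F g) : ∃ (R B S : BinaryTree Unit), SqD k R B S ∧ (∃ z ∈ F, htc z = OddHC.ht R) ∧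
    ∀ w ∈ g.B, ∃ i < 20, w.1 = H1.W R .nil B S i := by
  obtain ⟨R, B, S, w0, h1⟩ := h
  exact ⟨R, B, S, h1.sq, ⟨_, h1.f0, htc_z h1.sq w0⟩, J2D.wd h1⟩

/-- **A - J2B**: height at least 5 and a part 1, or no hit -/
def siA_J2 (F : Set (Cyc k)) (g g' : DG k) : Prop :=
  (∀ c ∈ F, 5 ≤ htc c ∧ 1 ∈ contc c) ∨ NI g g'

theorem i_A_J2 (h : TyA F g) (h' : J2X F' g') (hs : siA_J2 F g g') : NI g g' := by
  rcases hs with hs | hs
  · obtain ⟨R, B, S, h1, _, h3⟩ := h'.sqw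
    intro p hp w hw hw'
    obtain ⟨j, hj, e⟩ := h3 w hw'
    exact h.inner_sq5 h1 (fun c hc => (hs c hc).1) (fun c hc => (hs c hc).2) hp hw hj e
  · exact hs

theorem i_Ap_J2 (h : TyAp F g) (h' : J2X F' g') (hs : siA_J2 F g g') : NI g g' := i_A_J2 h.toA h' hs

theorem i_Aq_J2 (h : TyAq F g) (h' : J2X F' g') (hs : siA_J2 F g g') : NI g g' := i_A_J2 h.toA h' hs

/-- **Az - J2B**: no hit -/
theorem i_Az_J2 (hs : NI g g') : NI g g' := hs

/-- **T - J2B** -/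
theorem i_T_J2 (h : TyT F g) (h' : J2X F' g') : NI g g' := by
  obtain ⟨R, B, S, h1, _, h3⟩ := h'.sqw
  intro p hp w hw hw'
  obtain ⟨j, hj, e⟩ := h3 w hw'
  exact h.inner_sq h1 p hp w hw j hj e

/-- **R - J2B**: sharp phase, or one maximum in the words 9, 17, 19, or no hit -/
def siR_J2 (F' : Set (Cyc k)) (g g' : DG k) : Prop :=
  (∃ (R B S : BinaryTree Unit) (w0 : X k), J2D R B S w0 F' g' ∧
    (Sharp R ∨ ∀ j, j = 9 ∨ j = 17 ∨ j = 19 → OneTop (H1.W R .nil B S j))) ∨ NI g g'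

theorem i_rin_J2 {q : ℕ} (h : RIn q F g) (hle : ∀ c ∈ F, ∀ d ∈ F', htc c ≤ htc d)
    (hs : siR_J2 F' g g') : NI g g' := by
  rcases hs with ⟨R, B, S, w0, h1, h4⟩ | hs
  · have h5 : ∀ c ∈ F, htc c ≤ OddHC.ht R := by
      intro c hc
      rw [← htc_z h1.sq w0]
      exact hle c hc _ h1.f0
    rcases h4 with h4 | h4
    · exact fun p hp w hw => h.sharp h1.sq h4 (J2D.wd h1) h5 p hp w hw
    · exact fun p hp w hw => h.oneTop h1.sq h4 (J2D.wd h1) h5 p hp w hw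
  · exact hs

theorem i_R_J2 (h : RqS F g) (hle : ∀ c ∈ F, ∀ d ∈ F', htc c ≤ htc d)
    (hs : siR_J2 F' g g') : NI g g' := by
  obtain ⟨q, h1⟩ := h.rq
  exact i_rin_J2 h1.rin hle hs

theorem i_RE_J2 (h : RES F g) (hle : ∀ c ∈ F, ∀ d ∈ F', htc c ≤ htc d)
    (hs : siR_J2 F' g g') : NI g g' := by
  obtain ⟨q, h1⟩ := h
  exact i_rin_J2 h1.rin hle hs

end MW

end Pool.OddHC
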