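import Pool.Agent.Work.MP_8f87b2_h25.JEIn2
import Pool.Agent.Work.MP_8f87b2_h25.JEOut
import Pool.Agent.Work.MP_8f87b2_h84.JEMde
import Pool.Agent.Work.MP_8f87b2_h33.InRq
import Pool.Agent.Work.MP_8f87b2_h35.TyRqE
import Pool.Agent.Work.MP_8f87b2_h54.JVmw
import Pool.Agent.Work.MP_8f87b2_h77.JVJ1

/-!
# MP_8f87b2_co: inner rows of the mirrored type JEM, and the right windows of general `q` against JE and JEM
-/

set_option autoImplicit false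

namespace Pool.OddHC

open Finset Equiv BinaryTree Pool.Agent.Work.MP_8f87b2_co

open J3 SRun

variable {k q s c : ℕ} {R R' S S' : BinaryTree Unit} {F F' : Set (Cyc k)} {g g' : DG k}

theorem TyJEM.h3 (h : TyJEM S F g) : 3 ≤ ht S := h.sqd.h3

theorem TyJEM.one (h : TyJEM S F g) : (cont S).count 1 = 0 := h.sqd.one

theorem TyJEM.one' (h : TyJEM S F g) : 1 ∉ cont S := Multiset.count_eq_zero.1 h.one

theorem TyJEM.njs (h : TyJEM S F g) : ∀ w ∈ g.B, NJS w := by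
  obtain ⟨B, S', w0, h1⟩ := h.dem
  exact h1.njs

theorem TyJEM.nis2 (h : TyJEM S F g) : ∀ p ∈ g.arcs, ∀ w ∈ innA p, NIS w ∨ D2 (OddHC.wd w.1) := by
  obtain ⟨B, S', w0, h1⟩ := h.dem
  exact h1.nis2

/-- **every row JVm-X gives the row JEM-X** -/
theorem TyJEM.inner_of9 (h : TyJEM S F g) {A : Finset (X k)}
    (hV : ∀ F1 g1, Is9M .nil .nil S F1 g1 → F1 ⊆ F → ∀ p ∈ g1.arcs, ∀ w ∈ innA p, w ∉ A) :
    ∀ p ∈ g.arcs, ∀ w ∈ innA p, w ∉ A := by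
  obtain ⟨F1, g1, h1, h2, _, h4⟩ := h.toIs9M
  intro p hp
  exact hV F1 g1 h1 h2 p (by rw [h4]; exact hp)

/-- **every row X-JVm gives the row X-JEM**, if the inner words have no bead at the ends -/
theorem TyJEM.not_of (h : TyJEM S F g) {w : X k}
    (hV : ∀ F1 g1, Is9M .nil .nil S F1 g1 → F1 ⊆ F → w ∉ g1.B) (h2 : ¬ Bd w.1) : w ∉ g.B := by
  obtain ⟨B, S', w0, h1⟩ := h.dem
  refine h1.not_of (hV _ _ ?_ h1.sub9) h2
  have := h1.is9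
  rwa [Tsq.mir_mir] at this

/-- the nine words are enough for a word which is `NIS` or without single runs -/
theorem TyJEM.not_of2 (h : TyJEM S F g) {w : X k}
    (hV : ∀ F1 g1, Is9M .nil .nil S F1 g1 → F1 ⊆ F → w ∉ g1.B) (h2 : NIS w ∨ D2 (OddHC.wd w.1)) :
    w ∉ g.B := by
  rcases h2 with h2 | h2
  · exact h2.not_mem h.njs
  · exact h.not_of hV (fun hb => hb.not_D2 h2)

/-! ### X - JEM -/

/-- **I-A-JEM** -/
theorem TyA.inner_JEM (h : TyA F g) (h' : TyJEM S F' g') (hS : JVw S)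
    (hb : ∀ c ∈ F, 1 ∈ contc c) (hh : ∀ c ∈ F, ∀ d ∈ F', htc c ≤ htc d) {a : X k × X k}
    (ha : a ∈ g.arcs) : ∀ w ∈ innA a, w ∉ g'.B := fun w hw =>
  h'.not_of (fun F1 g1 e e2 => h.inner_JVm e hS hb (fun c hc d hd => hh c hc d (e2 hd)) ha w hw)
    (h.nbd ha w hw)

/-- **I-T-JEM** -/
theorem TyT.inner_JEM (h : TyT F g) (h' : TyJEM S F' g') :
    ∀ p ∈ g.arcs, ∀ w ∈ innA p, w ∉ g'.B := fun p hp w hw =>
  h'.not_of (fun F1 g1 e _ => h.inner_JVm e h'.one' h'.h3 p hp w hw) (h.nbd p hp w hw)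

/-- **I-Rq-JE** -/
theorem TyRq.inner_JE (h : TyRq q F g) (h' : TyJE R F' g') (hS : JVw R)
    (hh : ∀ c ∈ F, ∀ d ∈ F', htc c ≤ htc d) : ∀ p ∈ g.arcs, ∀ w ∈ innA p, w ∉ g'.B := fun p hp w hw =>
  h'.not_of (fun F1 g1 e e2 => h.inner_JV e hS (fun c hc d hd => hh c hc d (e2 hd)) p hp w hw)
    (h.innP p hp w hw).1.nbd

/-- **I-Rq-JEM** -/
theorem TyRq.inner_JEM (h : TyRq q F g) (h' : TyJEM S F' g') (hS : JVw S) (hSm : JVw (Tsq.mir S))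
    (hh : ∀ c ∈ F, ∀ d ∈ F', htc c ≤ htc d) : ∀ p ∈ g.arcs, ∀ w ∈ innA p, w ∉ g'.B := fun p hp w hw =>
  h'.not_of (fun F1 g1 e e2 => h.inner_JVm e hS hSm (fun c hc d hd => hh c hc d (e2 hd)) p hp w hw)
    (h.innP p hp w hw).1.nbd

/-- **I-Sq-JE** -/
theorem TySq.inner_JE (h : TySq q F g) (h' : TyJE R F' g')
    (hh : ∀ c ∈ F, ∀ d ∈ F', htc c ≤ htc d) : ∀ p ∈ g.arcs, ∀ w ∈ innA p, w ∉ g'.B := fun p hp w hw =>
  h'.not_of (fun F1 g1 e e2 => h.inner_JVb (Or.inl e) (Multiset.count_eq_zero.1 h'.one) h'.h3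
    (fun c hc d hd => hh c hc d (e2 hd)) p hp w hw) (h.innP p hp w hw).1.nbd

/-- **I-Sq-JEM** -/
theorem TySq.inner_JEM (h : TySq q F g) (h' : TyJEM S F' g')
    (hh : ∀ c ∈ F, ∀ d ∈ F', htc c ≤ htc d) : ∀ p ∈ g.arcs, ∀ w ∈ innA p, w ∉ g'.B := fun p hp w hw =>
  h'.not_of (fun F1 g1 e e2 => h.inner_JVb (Or.inr e) h'.one' h'.h3
    (fun c hc d hd => hh c hc d (e2 hd)) p hp w hw) (h.innP p hp w hw).1.nbd

/-! ### RqE -/

open HM in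
/-- **I-RqE-JV** -/
theorem TyRqE.inner_JV (h : TyRqE q F g) (h' : Is9 .nil .nil S F' g') (hS : JVw S)
    (hh : ∀ c ∈ F, ∀ d ∈ F', htc c ≤ htc d) : ∀ p ∈ g.arcs, ∀ w ∈ innA p, w ∉ g'.B := by
  intro p hp w hw
  obtain ⟨R, B, Sr, w0, i, h1, hi, rfl, hm⟩ := h.inn0 p hp w hw
  obtain ⟨d, hd, e1⟩ := h'.exF
  have h3 := hh _ hm d hd
  rw [e1, h1.ht0r w0] at h3
  by_cases h9 : i = 9
  · subst h9
    exact h1.nine_JV w0 h' hS h3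
  · refine h1.not_JVb w0 ?_ (fun h => absurd h h9) (Or.inl rfl) hS.one hS.ht3 h3 (Or.inl h')
    simp only [List.mem_cons, List.not_mem_nil, or_false] at hi ⊢
    omega

open HM in
/-- **I-RqE-JVm** -/
theorem TyRqE.inner_JVm (h : TyRqE q F g) (h' : Is9M .nil .nil S F' g') (hS : JVw S)
    (hSm : JVw (Tsq.mir S)) (hh : ∀ c ∈ F, ∀ d ∈ F', htc c ≤ htc d) :
    ∀ p ∈ g.arcs, ∀ w ∈ innA p, w ∉ g'.B := by
  intro p hp w hw
  obtain ⟨R, B, Sr, w0, i, h1, hi, rfl, hm⟩ := h.inn0 p hp w hw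
  obtain ⟨d, hd, e1⟩ := JVM.exF h'
  have h3 := hh _ hm d hd
  rw [e1, h1.ht0r w0] at h3
  by_cases h9 : i = 9
  · subst h9
    exact h1.nine_JVm w0 h' hS hSm h3
  · refine h1.not_JVb w0 ?_ (fun h => absurd h h9) (Or.inl rfl) hS.one hS.ht3 h3 (Or.inr h')
    simp only [List.mem_cons, List.not_mem_nil, or_false] at hi ⊢
    omega

open HM in
theorem TyRqE.innP (h : TyRqE q F g) : ∀ p ∈ g.arcs, ∀ w ∈ innA p, H1.InnP (q + 3) w.1 ∧ H1.Sml (q + 3) w.1 := by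
  intro p hp w hw
  obtain ⟨R, B, S, w0, i, h1, hi, rfl, hm⟩ := h.inn0 p hp w hw
  refine ⟨(h1.inn w0 ?_).1, (h1.sml w0 ?_).1⟩
  · simp only [List.mem_cons, List.not_mem_nil, or_false] at hi ⊢
    omega
  · simp only [List.mem_cons, List.not_mem_nil, or_false] at hi ⊢
    omega

/-- **I-RqE-JE** -/
theorem TyRqE.inner_JE (h : TyRqE q F g) (h' : TyJE R F' g') (hS : JVw R)
    (hh : ∀ c ∈ F, ∀ d ∈ F', htc c ≤ htc d) : ∀ p ∈ g.arcs, ∀ w ∈ innA p, w ∉ g'.B := fun p hp w hw =>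
  h'.not_of (fun F1 g1 e e2 => h.inner_JV e hS (fun c hc d hd => hh c hc d (e2 hd)) p hp w hw)
    (h.innP p hp w hw).1.nbd

/-- **I-RqE-JEM** -/
theorem TyRqE.inner_JEM (h : TyRqE q F g) (h' : TyJEM S F' g') (hS : JVw S) (hSm : JVw (Tsq.mir S))
    (hh : ∀ c ∈ F, ∀ d ∈ F', htc c ≤ htc d) : ∀ p ∈ g.arcs, ∀ w ∈ innA p, w ∉ g'.B := fun p hp w hw =>
  h'.not_of (fun F1 g1 e e2 => h.inner_JVm e hS hSm (fun c hc d hd => hh c hc d (e2 hd)) p hp w hw)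
    (h.innP p hp w hw).1.nbd

/-! ### The words with `NIS` -/

theorem TyJM.inner_JEM (h : TyJM F g) (h' : TyJEM S F' g') : ∀ p ∈ g.arcs, ∀ w ∈ innA p, w ∉ g'.B :=
  fun p hp w hw => (h.nis p hp w hw).not_mem h'.njs

theorem TyJ3V.inner_JEM (h : TyJ3V F g) (h' : TyJEM S F' g') : ∀ p ∈ g.arcs, ∀ w ∈ innA p, w ∉ g'.B :=
  fun p hp w hw => (h.nis p hp w hw).not_mem h'.njs

theorem Hole2.TyH.inner_JEM (h : Hole2.TyH F g) (h' : TyJEM S F' g') : ∀ p ∈ g.arcs, ∀ w ∈ innA p, w ∉ g'.B :=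
  fun p hp w hw => (h.nis p hp w hw).not_mem h'.njs

/-- **I-J1-JEM**, right and mirrored J1 over `[s][c]` -/
theorem J1s.inner_JEM (hs : 3 ≤ s) (hc : 2 ≤ c) (hA : J.J1A s c g ∨ J.J1MA s c g) (h' : TyJEM S F' g')
    (hJ : ∀ F1 g1, Is9M .nil .nil S F1 g1 → F1 ⊆ F' → ∀ p ∈ g.arcs, ∀ w ∈ innA p, w ∉ g1.B) :
    ∀ p ∈ g.arcs, ∀ w ∈ innA p, w ∉ g'.B := fun p hp w hw =>
  h'.not_of2 (fun F1 g1 e1 e2 => hJ F1 g1 e1 e2 p hp w hw)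
    (hA.elim (fun h => J1A.nis2 hs hc h p hp w hw) (fun h => J1MA.nis2 hs hc h p hp w hw))

/-- **I-JV-JEM**, JV right or mirrored: the row against JVm is enough -/
theorem Is9.inner_JEM (h : Is9 .nil .nil S' F g ∨ Is9M .nil .nil S' F g) (h3 : 3 ≤ ht S')
    (h1 : (cont S').count 1 = 0) (h' : TyJEM S F' g')
    (hJ : ∀ F1 g1, Is9M .nil .nil S F1 g1 → F1 ⊆ F' → ∀ p ∈ g.arcs, ∀ w ∈ innA p, w ∉ g1.B) :
    ∀ p ∈ g.arcs, ∀ w ∈ innA p, w ∉ g'.B := fun p hp w hw =>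
  h'.not_of2 (fun F1 g1 e1 e2 => hJ F1 g1 e1 e2 p hp w hw) (Is9.nis2 h h3 h1 p hp w hw)

end Pool.OddHC
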