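import Pool.Agent.Work.MP_8f87b2_h25.JEBase
import Pool.Agent.Work.MP_8f87b2_h33.InJV
import Pool.Agent.Work.MP_8f87b2_h35.TyJ5V
import Pool.Agent.Work.MP_8f87b2_h60.TyB0

/-!
# MP_8f87b2_co: inner words of the other types against the words of a 13-word gadget (JE)

`Bd t`: a bead at the beginning or at the end of `t`. The words of `DE` (`DEM`) are the nine words of a pair gadget JV and
four words with `Bd`.
-/

set_option autoImplicit false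

namespace Pool.OddHC

open Finset Equiv BinaryTree Pool.Agent.Work.MP_8f87b2_co

open J3 SRun

variable {k : ℕ} {R B S : BinaryTree Unit} {v : ℕ → X k} {F F' : Set (Cyc k)} {g g' : DG k}

/-- a bead at the beginning or at the end -/
def Bd (t : BinaryTree Unit) : Prop := (∃ Y, t = .nil △ Y) ∨ ∃ Y, t = app Y (.nil △ .nil)

theorem Bd.mir {t : BinaryTree Unit} (h : Bd t) : Bd (Tsq.mir t) := by
  have h0 : Tsq.mir (.nil : BinaryTree Unit) = .nil := rfl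
  rcases h with ⟨Y, rfl⟩ | ⟨Y, rfl⟩
  · right
    exact ⟨Tsq.mir Y, by rw [Tsq.mir_node, h0]⟩
  · left
    refine ⟨Tsq.mir Y, ?_⟩
    rw [Tsq.mir_app, Tsq.mir_node, h0]
    rfl

theorem Bd.wd {t : BinaryTree Unit} (h : Bd t) :
    (∃ v, OddHC.wd t = true :: false :: v) ∨ ∃ v, OddHC.wd t = v ++ [true, false] := by
  rcases h with ⟨Y, rfl⟩ | ⟨Y, rfl⟩
  · left
    exact ⟨OddHC.wd Y, by rw [wd_node]; simp [OddHC.wd]⟩
  · right
    exact ⟨OddHC.wd Y, by rw [wd_app, wd_node]; simp [OddHC.wd]⟩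

theorem Bd.W4 {i : ℕ} (hi : i ∈ [1, 2, 5, 8]) : Bd (H1.W R .nil B S i) := by
  simp only [List.mem_cons, List.not_mem_nil, or_false] at hi
  rcases hi with rfl | rfl | rfl | rfl
  · right
    refine ⟨app R (.nil △ .nil), ?_⟩
    change app R (.nil △ (.nil △ .nil)) = _
    rw [Tsq.app_assoc]
    rfl
  · exact Or.inl ⟨_, rfl⟩
  · exact Or.inl ⟨_, rfl⟩
  · exact Or.inl ⟨_, rfl⟩

theorem Bd.not_D2 {t : BinaryTree Unit} (h : Bd t) (h2 : D2 (OddHC.wd t)) : False := by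
  rcases h.wd with ⟨v, e⟩ | ⟨v, e⟩
  · rw [e] at h2
    exact absurd h2.eq (by simp)
  · exact (h2.cut (u := v) (v := []) (c := true) (d := false) (by simp) e).2.not_one

theorem DE.bd (h : DE k R B S v F g) : ∀ w ∈ g.B, w ∈ (gad9 (fun i => v (j9 i))).B ∨ Bd w.1 := by
  intro w hw
  rcases h.wd9 w hw with h1 | ⟨i, hi, e⟩
  · exact Or.inl h1
  · right
    rw [e]
    exact Bd.W4 hi

theorem DEM.bd (h : DEM k R B S v F g) : ∀ w ∈ g.B, w ∈ (gad9M (fun i => v (j9 i))).B ∨ Bd w.1 := by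
  intro w hw
  rcases h.wd9 w hw with h1 | ⟨i, hi, e⟩
  · exact Or.inl h1
  · right
    rw [e]
    exact (Bd.W4 hi).mir

theorem DE.not_of (h : DE k R B S v F g) {w : X k} (h1 : w ∉ (gad9 (fun i => v (j9 i))).B)
    (h2 : ¬ Bd w.1) : w ∉ g.B := by
  intro hw
  rcases h.bd w hw with h3 | h3
  · exact h1 h3
  · exact h2 h3

theorem DEM.not_of (h : DEM k R B S v F g) {w : X k} (h1 : w ∉ (gad9M (fun i => v (j9 i))).B)
    (h2 : ¬ Bd w.1) : w ∉ g.B := by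
  intro hw
  rcases h.bd w hw with h3 | h3
  · exact h1 h3
  · exact h2 h3

/-! ### The inner words of A, A0, B0, T have no bead at the ends -/

theorem TyA.nbd (h : TyA F g) {a : X k × X k} (ha : a ∈ g.arcs) : ∀ w ∈ innA a, ¬ Bd w.1 := by
  intro w hw hb
  rcases hb.wd with h1 | h1
  · exact h.inner_of ha (Or.inl h1) hw
  · exact h.inner_of ha (Or.inr (Or.inr (Or.inl h1))) hw

theorem _root_.Pool.OddHC.H1.InnP.nbd {g0 : ℕ} {t : BinaryTree Unit} (h : H1.InnP g0 t) : ¬ Bd t := by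
  rintro (⟨Y, e⟩ | ⟨Y, e⟩)
  · exact h.not_first e
  · exact h.not_last e

/-- **I-A-JE** -/
theorem TyA.inner_DE (h : TyA F g) (h' : DE k R B S v F' g') (hS : JVw R)
    (hb : ∀ c ∈ F, 1 ∈ contc c) (hh : ∀ c ∈ F, ∀ d ∈ F', htc c ≤ htc d) {a : X k × X k}
    (ha : a ∈ g.arcs) : ∀ w ∈ innA a, w ∉ g'.B := fun w hw =>
  h'.not_of (h.inner_JV h'.is9 hS hb (fun c hc d hd => hh c hc d (h'.sub9 d hd)) ha w hw)
    (h.nbd ha w hw)

/-- **I-A0-JE** -/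
theorem TyA0.inner_DE (h : TyA0 F g) (h' : DE k R B S v F' g') (hS : JVw R)
    (hh : ∀ c ∈ F, ∀ d ∈ F', htc c ≤ htc d) : ∀ p ∈ g.arcs, ∀ w ∈ innA p, w ∉ g'.B := by
  obtain ⟨q, h1⟩ := h.inn1
  intro p hp w hw
  exact h'.not_of (h.inner_JV h'.is9 hS (fun c hc d hd => hh c hc d (h'.sub9 d hd)) p hp w hw)
    (h1 p hp w hw).1.nbd

/-- the inner words of B0 -/
theorem TyB0.inn (h : TyB0 F g) : ∃ (q : ℕ) (R B S : BinaryTree Unit) (w0 : X k), HM.NodeM k q R B S ∧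
    cyc (HM.mX R B S q w0 0) ∈ F ∧ ∀ p ∈ g.arcs, ∃ i ∈ [3, 6, 8],
      innA p = {Tsq.mirX (TT (H1.wX R B S q w0 i))} := by
  obtain ⟨q, R, B, S, w0, h1, hne, h12, h18, rfl, rfl⟩ := h
  refine ⟨q, R, B, S, w0, h1, Or.inl rfl, ?_⟩
  intro p hp
  have key : ∀ i j, (i, j) ∈ [(0, 10), (1, 11), (3, 12), (6, 15), (8, 14), (9, 17)] →
      p = (HM.mX R B S q w0 j, HM.mX R B S q w0 i) → innA p = {Tsq.mirX (TT (H1.wX R B S q w0 i))} := by
    rintro i j hij rfl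
    change ({TT (HM.mX R B S q w0 j)} : Set (X k)) = _
    rw [inner_mir h1 w0 hij]
  have hp' : p = (HM.mX R B S q w0 12, HM.mX R B S q w0 3) ∨ p = (HM.mX R B S q w0 15, HM.mX R B S q w0 6) ∨
      p = (HM.mX R B S q w0 14, HM.mX R B S q w0 8) := hp
  rcases hp' with e | e | e
  · exact ⟨3, by simp, key 3 12 (by simp) e⟩
  · exact ⟨6, by simp, key 6 15 (by simp) e⟩
  · exact ⟨8, by simp, key 8 14 (by simp) e⟩

theorem TyB0.ht0 {q : ℕ} {R B S : BinaryTree Unit} {w0 : X k} (h1 : HM.NodeM k q R B S) :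
    htc (cyc (HM.mX R B S q w0 0)) = ht R := by
  rw [htc_cyc, h1.ht012 w0 (Or.inl rfl)]

/-- **I-B0-JV** -/
theorem TyB0.inner_JV (h : TyB0 F g) {S : BinaryTree Unit} (h' : Is9 .nil .nil S F' g') (hS : JVw S)
    (hh : ∀ c ∈ F, ∀ d ∈ F', htc c ≤ htc d) : ∀ p ∈ g.arcs, ∀ w ∈ innA p, w ∉ g'.B := by
  obtain ⟨q, R, B, Sr, w0, h1, h0, h2⟩ := h.inn
  intro p hp w hw
  obtain ⟨i, hi, e⟩ := h2 p hp
  rw [e] at hw
  obtain rfl : w = _ := hw
  obtain ⟨d, hd, e1⟩ := h'.exF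
  refine h1.not_JV w0 (by
    simp only [List.mem_cons, List.not_mem_nil, or_false] at hi ⊢
    omega) h' hS ?_
  have h3 := hh _ h0 d hd
  rw [e1, TyB0.ht0 h1] at h3
  exact h3

/-- **I-B0-JE** -/
theorem TyB0.inner_DE (h : TyB0 F g) (h' : DE k R B S v F' g') (hS : JVw R)
    (hh : ∀ c ∈ F, ∀ d ∈ F', htc c ≤ htc d) : ∀ p ∈ g.arcs, ∀ w ∈ innA p, w ∉ g'.B := by
  obtain ⟨q, R1, B1, S1, w0, h1, h0, h2⟩ := h.inn
  intro p hp w hw
  refine h'.not_of (h.inner_JV h'.is9 hS (fun c hc d hd => hh c hc d (h'.sub9 d hd)) p hp w hw) ?_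
  obtain ⟨i, hi, e⟩ := h2 p hp
  rw [e] at hw
  obtain rfl : w = _ := hw
  exact (h1.inn w0 (by
    simp only [List.mem_cons, List.not_mem_nil, or_false] at hi ⊢
    omega)).2.nbd

theorem TyT.nbd (h : TyT F g) : ∀ p ∈ g.arcs, ∀ w ∈ innA p, ¬ Bd w.1 := by
  intro p hp w hw
  obtain ⟨b, m, a, i, hm, e0⟩ := h.innerm p hp w hw
  have hlast := H1.lastB_Y3 (b := b) (m := m) (a := a) i
  have hfb := H1.fb_Y3 (b := b) (m := m) (a := a) i
  rw [← e0] at hlast hfb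
  rintro (⟨Y, e⟩ | ⟨Y, e⟩)
  · rw [e] at hfb
    simp [H1.fb, H1.isNil] at hfb
  · rw [e, H1.lastB_app (by simp)] at hlast
    simp [H1.lastB, H1.isNil] at hlast

/-- **I-T-JE** -/
theorem TyT.inner_DE (h : TyT F g) (h' : DE k R B S v F' g') (hS : JVw R) :
    ∀ p ∈ g.arcs, ∀ w ∈ innA p, w ∉ g'.B := fun p hp w hw =>
  h'.not_of (h.inner_JV h'.is9 hS p hp w hw) (h.nbd p hp w hw)

/-! ### The J kinds -/

/-- **I-JM-JE** -/
theorem TyJM.inner_DE (h : TyJM F g) (h' : DE k R B S v F' g') : ∀ p ∈ g.arcs, ∀ w ∈ innA p, w ∉ g'.B :=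
  fun p hp w hw => (h.nis p hp w hw).not_mem h'.njs

/-- **I-JM-JEm** -/
theorem TyJM.inner_DEM (h : TyJM F g) (h' : DEM k R B S v F' g') : ∀ p ∈ g.arcs, ∀ w ∈ innA p, w ∉ g'.B :=
  fun p hp w hw => (h.nis p hp w hw).not_mem h'.njs

/-- **I-J3V-JE** -/
theorem TyJ3V.inner_DE (h : TyJ3V F g) (h' : DE k R B S v F' g') : ∀ p ∈ g.arcs, ∀ w ∈ innA p, w ∉ g'.B :=
  fun p hp w hw => (h.nis p hp w hw).not_mem h'.njs

/-- **I-J3V-JEm** -/
theorem TyJ3V.inner_DEM (h : TyJ3V F g) (h' : DEM k R B S v F' g') : ∀ p ∈ g.arcs, ∀ w ∈ innA p, w ∉ g'.B :=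
  fun p hp w hw => (h.nis p hp w hw).not_mem h'.njs

/-- the only inner word of J5V -/
theorem TyJ5V.nis1 (h : TyJ5V F g) : ∀ p ∈ g.arcs, ∀ w ∈ innA p, NIS w := by
  obtain ⟨R, S, w0, h1, _, _, h2⟩ := h.inn
  intro p hp w hw
  rw [h2 p hp w hw]
  exact NIS.of_W h1.ne h1.one h1.h3 (i := 8) (by simp) (h1.word w0 (by norm_num))

/-- **I-J5V-JE** -/
theorem TyJ5V.inner_DE (h : TyJ5V F g) (h' : DE k R B S v F' g') : ∀ p ∈ g.arcs, ∀ w ∈ innA p, w ∉ g'.B :=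
  fun p hp w hw => (h.nis1 p hp w hw).not_mem h'.njs

/-- **I-J5V-JEm** -/
theorem TyJ5V.inner_DEM (h : TyJ5V F g) (h' : DEM k R B S v F' g') :
    ∀ p ∈ g.arcs, ∀ w ∈ innA p, w ∉ g'.B :=
  fun p hp w hw => (h.nis1 p hp w hw).not_mem h'.njs

theorem _root_.Pool.OddHC.SRun.D2.rev25 {l : List Bool} (h : D2 l) : D2 l.reverse := by
  induction h with
  | nil => exact D2.nil
  | two c l _ ih =>
    have e : (c :: c :: l).reverse = l.reverse ++ [c, c] := by simp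
    rw [e]
    exact ih.app (D2.two c [] D2.nil)
  | three c l _ ih =>
    have e : (c :: c :: c :: l).reverse = l.reverse ++ [c, c, c] := by simp
    rw [e]
    exact ih.app (D2.three c [] D2.nil)

theorem _root_.Pool.OddHC.SRun.D2.mir {t : BinaryTree Unit} (h : D2 (OddHC.wd (Tsq.mir t))) :
    D2 (OddHC.wd t) := by
  rw [Tsq.wd_mir] at h
  have h1 := h.rev25.mapnot
  simpa [Function.comp_def] using h1

/-- the inner words of JV, right and mirrored: `NIS` or without single runs -/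
theorem Is9.nis2 {S : BinaryTree Unit} (h : Is9 .nil .nil S F g ∨ Is9M .nil .nil S F g)
    (h3 : 3 ≤ ht S) (h1 : (cont S).count 1 = 0) : ∀ p ∈ g.arcs, ∀ w ∈ innA p, NIS w ∨
      D2 (OddHC.wd w.1) := by
  intro p hp w hw
  rcases h with h | h
  · rcases h.nis h3 h1 p hp w hw with h2 | h2
    · exact Or.inl h2
    · exact Or.inr h2.1
  · rcases h.nis h3 h1 p hp w hw with h2 | h2
    · exact Or.inl h2
    · exact Or.inr (D2.mir h2.1)

/-- **I-JV-JE**: the row against the nine words of JV is enough -/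
theorem Is9.inner_DE {S' : BinaryTree Unit} (h : Is9 .nil .nil S' F g ∨ Is9M .nil .nil S' F g)
    (h3 : 3 ≤ ht S') (h1 : (cont S').count 1 = 0) (h' : DE k R B S v F' g')
    (hJ : ∀ p ∈ g.arcs, ∀ w ∈ innA p, w ∉ (gad9 (fun i => v (j9 i))).B) :
    ∀ p ∈ g.arcs, ∀ w ∈ innA p, w ∉ g'.B := by
  intro p hp w hw
  rcases Is9.nis2 h h3 h1 p hp w hw with h2 | h2
  · exact h2.not_mem h'.njs
  · exact h'.not_of (hJ p hp w hw) (fun hb => hb.not_D2 h2)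

/-- **I-JV-JEm** -/
theorem Is9.inner_DEM {S' : BinaryTree Unit} (h : Is9 .nil .nil S' F g ∨ Is9M .nil .nil S' F g)
    (h3 : 3 ≤ ht S') (h1 : (cont S').count 1 = 0) (h' : DEM k R B S v F' g')
    (hJ : ∀ p ∈ g.arcs, ∀ w ∈ innA p, w ∉ (gad9M (fun i => v (j9 i))).B) :
    ∀ p ∈ g.arcs, ∀ w ∈ innA p, w ∉ g'.B := by
  intro p hp w hw
  rcases Is9.nis2 h h3 h1 p hp w hw with h2 | h2
  · exact h2.not_mem h'.njs
  · exact h'.not_of (hJ p hp w hw) (fun hb => hb.not_D2 h2)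

/-- the inner words of JE -/
theorem DE.nis2 (h : DE k R B S v F g) : ∀ p ∈ g.arcs, ∀ w ∈ innA p, NIS w ∨ D2 (OddHC.wd w.1) :=
  fun p hp => Is9.nis2 (Or.inl h.is9) h.sq.h3 h.sq.one p (h.arc9 p hp)

theorem DEM.nis2 (h : DEM k R B S v F g) : ∀ p ∈ g.arcs, ∀ w ∈ innA p, NIS w ∨ D2 (OddHC.wd w.1) :=
  fun p hp => Is9.nis2 (Or.inr h.is9) (by rw [ht_mir]; exact h.sq.h3)
    (by rw [HM.cont_mir]; exact h.sq.one) p (h.arc9 p hp)

/-- **I-JE-JE**: the row against the nine words of JV is enough -/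
theorem DE.inner_DE {R' B' S' : BinaryTree Unit} {v' : ℕ → X k} (h : DE k R B S v F g)
    (h' : DE k R' B' S' v' F' g')
    (hJ : ∀ p ∈ (gad9 (fun i => v (j9 i))).arcs, ∀ w ∈ innA p, w ∉ (gad9 (fun i => v' (j9 i))).B) :
    ∀ p ∈ g.arcs, ∀ w ∈ innA p, w ∉ g'.B := fun p hp =>
  Is9.inner_DE (Or.inl h.is9) h.sq.h3 h.sq.one h' hJ p (h.arc9 p hp)

end Pool.OddHC
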