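import Pool.Agent.Work.MP_8f87b2_h68.J1I
import Pool.Agent.Work.MP_8f87b2_h99.J2I

/-!
# MP_8f87b2_co: J2B in the language of `NIS`, `NJS`

`J2D R B S w0 F g`: the gadget has words `W R nil B S i` (`i < 20`, word 9 = `((R))` included) and arcs 1, 3, 6, 8. All words are
`NJS`, all inner words are `NIS`: rows J2B-{J2B, J3V, JM, JG (J3, H), J1, J4}, {J3V, JM, J1, J4, JG}-J2B.
-/

set_option autoImplicit false

namespace Pool.OddHC

open Finset Equiv BinaryTree Pool.Agent.Work.MP_8f87b2_co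

open SRun H1 J3

variable {k : ℕ} {F F' : Set (Cyc k)} {g g' : DG k} {R B S : BinaryTree Unit} {w0 : X k}

/-- abstract data of J2B -/
structure J2D (R B S : BinaryTree Unit) (w0 : X k) (F : Set (Cyc k)) (g : DG k) : Prop where
  sq : SqD k R B S
  wds : ∀ w ∈ g.B, ∃ i < 20, w = sX R B S w0 i
  ar : ∀ p ∈ g.arcs, ∃ i ∈ [1, 3, 6, 8], p.1 = sX R B S w0 i
  f0 : cyc (sX R B S w0 0) ∈ F

namespace J2D

/-- only the T-cycle of `z` -/
theorem one (h : J2D R B S w0 F g) : J2D R B S w0 {cyc (sX R B S w0 0)} g := ⟨h.sq, h.wds, h.ar, rfl⟩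

theorem toIn (h : J2D R B S w0 F g) (hh : ∀ c ∈ F, htc c = OddHC.ht R) : J2In F g := by
  refine ⟨R, B, S, w0, h.sq, hh, ?_⟩
  intro p hp
  obtain ⟨i, hi, e⟩ := h.ar p hp
  exact ⟨i, hi, by unfold innA; rw [e]⟩

theorem njs (h : J2D R B S w0 F g) : ∀ w ∈ g.B, NJS w := by
  intro w hw
  obtain ⟨i, hi, rfl⟩ := h.wds w hw
  exact NJS.of_W h.sq.ne h.sq.neS h.sq.one h.sq.oneB h.sq.oneS hi (Or.inl (h.sq.word w0 hi))

theorem nis (h : J2D R B S w0 F g) : ∀ p ∈ g.arcs, ∀ w ∈ innA p, NIS w := by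
  intro p hp w hw
  obtain ⟨i, hi, e⟩ := h.ar p hp
  have hw' : w = TT p.1 := hw
  rw [hw', e]
  have hi20 : i < 20 := by
    simp only [List.mem_cons, List.not_mem_nil, or_false] at hi
    omega
  exact NIS.of_W h.sq.ne h.sq.one h.sq.h3 hi (h.sq.word w0 hi20)

/-! ### rows with `NIS` inner words and `NJS` words -/

/-- general form, J2B first -/
theorem inner_njs (h : J2D R B S w0 F g) {C : Finset (X k)} (h' : ∀ w ∈ C, NJS w) :
    ∀ p ∈ g.arcs, ∀ w ∈ innA p, w ∉ C :=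
  fun p hp w hw => (h.nis p hp w hw).not_mem h'

/-- general form, J2B second -/
theorem nis_inner (h : J2D R B S w0 F' g') (h' : ∀ p ∈ g.arcs, ∀ w ∈ innA p, NIS w) :
    ∀ p ∈ g.arcs, ∀ w ∈ innA p, w ∉ g'.B :=
  fun p hp w hw => (h' p hp w hw).not_mem h.njs

/-- **I-J2B-J2B** -/
theorem inner_J2 {R' B' S' : BinaryTree Unit} {w0' : X k} (h : J2D R B S w0 F g) (h' : J2D R' B' S' w0' F' g') :
    ∀ p ∈ g.arcs, ∀ w ∈ innA p, w ∉ g'.B := h.inner_njs h'.njs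

/-- **I-J2B-J3V** -/
theorem inner_J3V (h : J2D R B S w0 F g) (h' : TyJ3V F' g') : ∀ p ∈ g.arcs, ∀ w ∈ innA p, w ∉ g'.B :=
  h.inner_njs h'.njs

/-- **I-J3V-J2B** -/
theorem J3V_inner (h : J2D R B S w0 F' g') (h' : TyJ3V F g) : ∀ p ∈ g.arcs, ∀ w ∈ innA p, w ∉ g'.B :=
  h.nis_inner h'.nis

/-- **I-J2B-JM** -/
theorem inner_JM (h : J2D R B S w0 F g) (h' : TyJM F' g') : ∀ p ∈ g.arcs, ∀ w ∈ innA p, w ∉ g'.B :=
  h.inner_njs h'.njs

/-- **I-JM-J2B** -/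
theorem JM_inner (h : J2D R B S w0 F' g') (h' : TyJM F g) : ∀ p ∈ g.arcs, ∀ w ∈ innA p, w ∉ g'.B :=
  h.nis_inner h'.nis

/-- **I-J2B-JG**: all gadgets of one soliton classes (J3, JM, H) -/
theorem inner_JG (h : J2D R B S w0 F g) {n : ℕ} (hn : 1 ≤ n) {C : Finset (X k)}
    {P U M : Set (ZMod (2 * n + 1) → ℕ)} (h' : J.JG n C P U M) : ∀ p ∈ g.arcs, ∀ w ∈ innA p, w ∉ C :=
  h.inner_njs (JG_njs hn h')

/-- **I-J2B-J1** (type `J1.TyJ1`) -/
theorem inner_J1 (h : J2D R B S w0 F g) (h' : J1.TyJ1 F' g') : ∀ p ∈ g.arcs, ∀ w ∈ innA p, w ∉ g'.B :=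
  h.inner_njs h'.njs

/-- **I-J2B-J1**, right and mirrored, over `[s][c]` -/
theorem inner_J1s (h : J2D R B S w0 F g) {s c : ℕ} (hs : 2 ≤ s) (hc : 2 ≤ c) {C : Finset (X k)}
    (h' : ∀ w ∈ C, J.IsJ1 s c w.1 ∨ J.IsJ1M s c w.1) : ∀ p ∈ g.arcs, ∀ w ∈ innA p, w ∉ C :=
  h.inner_njs fun v hv => IsJ1.njs hs hc (h' v hv)

/-- the word `((Y))` (words 9 and 17) -/
theorem not_par2 (h : J2D R B S w0 F' g') {Y : BinaryTree Unit} (hY : Y ≠ .nil) {M : Multiset ℕ}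
    (hM : OddHC.cont Y = M) (hF : ∀ z ∈ F', contc z ≠ M + {2}) {w : X k}
    (e : w.1 = (Y △ .nil) △ .nil) : w ∉ g'.B := by
  intro hw
  obtain ⟨i, hi, rfl⟩ := h.wds w hw
  rw [h.sq.word w0 hi] at e
  refine hF _ h.f0 ?_
  rw [contc_cyc, h.sq.cont0 w0]
  by_cases h9 : i = 9
  · subst h9
    have e1 : (R △ .nil) △ .nil = (Y △ .nil) △ .nil := e
    rw [(H1.node_inj (H1.node_inj e1).1).1, hM]
  · obtain ⟨_, e1, e2⟩ := par2_W h.sq.ne h.sq.neS hY hi h9 e.symm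
    have e3 := h.sq.cont
    rw [e2, cont_nil, zero_add, e1, hM] at e3
    rw [e3]

/-- **I-J1-J2B**, right, `s ≥ c + 2` -/
theorem J1A_inner (h : J2D R B S w0 F' g') {s c : ℕ} (hc : 2 ≤ c) (hs : c + 2 ≤ s) (hA : J.J1A s c g)
    (hF : ∀ z ∈ F', contc z ≠ {c} + {s} + {2}) : ∀ p ∈ g.arcs, ∀ w ∈ innA p, w ∉ g'.B := by
  intro p hp w hw
  rcases J1A.nis (by omega) hc hA p hp w hw with h1 | ⟨x, hx, rfl⟩
  · exact h1.not_mem h.njs
  · obtain ⟨m, rfl⟩ : ∃ m, s = m + 2 + c := ⟨s - c - 2, by omega⟩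
    have e := TT_nine hx
    have hY := (cont_prn (m := m) (c := c) (by omega)).1
    refine h.not_par2 (Y := prn m (app (ch c) (ch (c + 2)))) ?_ hY ?_ e
    · intro e0
      rw [e0, cont_nil] at hY
      have := congrArg Multiset.card hY
      simp at this
    · rw [show c + 2 + m = m + 2 + c by omega]
      exact hF

/-- **I-J1M-J2B**, mirrored, `s ≥ c + 2` -/
theorem J1MA_inner (h : J2D R B S w0 F' g') {s c : ℕ} (hc : 2 ≤ c) (hs : c + 2 ≤ s) (hA : J.J1MA s c g)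
    (hF : ∀ z ∈ F', contc z ≠ {c} + {s} + {2}) : ∀ p ∈ g.arcs, ∀ w ∈ innA p, w ∉ g'.B := by
  intro p hp w hw
  rcases J1MA.nis (by omega) hc hA p hp w hw with h1 | ⟨x, hx, rfl⟩
  · exact h1.not_mem h.njs
  · obtain ⟨m, rfl⟩ : ∃ m, s = m + 2 + c := ⟨s - c - 2, by omega⟩
    have e := TT_nine hx
    have hY := (cont_prn (m := m) (c := c) (by omega)).2
    have e' : (Tsq.mirX (TT x)).1 = (prn m (app (ch (c + 2)) (ch c)) △ .nil) △ .nil := by
      change Tsq.mir (TT x).1 = _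
      rw [e]
      change Tsq.mir (prn (m + 2) (app (ch c) (ch (c + 2)))) = prn (m + 2) (app (ch (c + 2)) (ch c))
      rw [mir_prn, Tsq.mir_app, SRun.mir_ch, SRun.mir_ch]
    refine h.not_par2 (Y := prn m (app (ch (c + 2)) (ch c))) ?_ hY ?_ e'
    · intro e0
      rw [e0, cont_nil] at hY
      have := congrArg Multiset.card hY
      simp at this
    · rw [show c + 2 + m = m + 2 + c by omega]
      exact hF

end J2D

end Pool.OddHC
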