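import Pool.Agent.Work.MP_8f87b2_h50.J3A
import Pool.Agent.Work.MP_8f87b2_h25.J2Bi

/-!
# MP_8f87b2_co: the inner words of J2B against all windows of type A

With a part 1: `T(w1) = b' 01010 a'` and `T(w6) = b' 10100 a'` have no factor `1011`, `T(w8)` has no factor `101`, `T(w3)` as for the pair
gadgets (condition for height 4 only). Without a part 1 (`m = 0`): the words have a factor `1 0 1` only up to height 1 (`bv_W`).
-/

set_option autoImplicit false

namespace Pool.OddHC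

open BinaryTree Equiv Multiset Pool.Agent.Work.MP_8f87b2_co

namespace J3

open H1 SRun JVi

variable {k n : ℕ} {w : X k} {F F' : Set (Cyc k)} {g g' : DG k} {R B S : BinaryTree Unit} {a b : List Bool}

/-- no factor `1 0 1 1` in `b' 01010 a'` -/
theorem Dt_n1 (h : Dt R a b) (p s : List Bool) :
    b.map not ++ ([false, true, false, true, false] ++ a.map not) ≠ p ++ true :: false :: true :: true :: s := by
  intro e
  obtain ⟨β, hβ⟩ := h.last
  obtain ⟨l, hl⟩ := h.st
  have hb : N101 (b.map not) := N101.of_D2 h.be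
  have ha := h.al
  rw [hβ] at e hb
  have e' : β ++ (true :: false :: true :: false :: true :: false :: a.map not) =
      p ++ true :: false :: true :: true :: s := by
    rw [← e]; simp
  rcases List.append_eq_append_iff.1 e' with ⟨r, h1, h2⟩ | ⟨r, h1, h2⟩
  · -- `p = β ++ r`
    rcases r with _ | ⟨x1, r⟩
    · simp at h2
    rcases r with _ | ⟨x2, r⟩
    · simp at h2
    rcases r with _ | ⟨x3, r⟩
    · simp at h2
    rcases r with _ | ⟨x4, r⟩
    · simp at h2
    rcases r with _ | ⟨x5, r⟩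
    · simp [hl] at h2
    rcases r with _ | ⟨x6, r⟩
    · simp at h2
    · simp only [List.cons_append, List.cons.injEq] at h2
      exact ha r (true :: s) h2.2.2.2.2.2.2
  · -- `β = p ++ r`
    rcases r with _ | ⟨x1, r⟩
    · simp at h2
    rcases r with _ | ⟨x2, r⟩
    · simp at h2
    rcases r with _ | ⟨x3, r⟩
    · simp at h2
    · simp only [List.cons_append, List.cons.injEq] at h2
      obtain ⟨rfl, rfl, rfl, _⟩ := h2
      exact hb p (r ++ [true]) (by rw [h1]; simp)

/-- no factor `1 0 1`, without part 1 -/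
theorem nbb_one25 {t : BinaryTree Unit} (h : (OddHC.cont t).count 1 = 0) : nbb t := by
  by_cases h0 : t = .nil
  · rw [h0]; exact nbb_nil
  · exact ⟨N101.of_D2 (Gd_of h0 h).1.d2, N101.of_D2 (Gd_of h0 h).2.d2⟩

theorem cont_sq2 {R : BinaryTree Unit} (h : R ≠ .nil) :
    OddHC.cont (Tsq.sq R).2 + OddHC.cont (Tsq.sq R).1 = OddHC.cont R := by
  let x : X R.numNodes := ⟨R, mem_treesOfNumNodesEq.2 rfl⟩
  have e1 : (TT (TT x)).1 = app (Tsq.sq R).2 (Tsq.sq R).1 := Tsq.TT_sq x h
  have e2 : OddHC.cont (TT (TT x)).1 = OddHC.cont R := by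
    rw [TT_apply, cont_TF, TT_apply, cont_TF]
  rw [e1, cont_app] at e2
  exact e2

/-- the words of a window of type A without part 1 -/
theorem bv_gX {q : ℕ} {B1 H s B' : BinaryTree Unit} (hn : NodeG k q B1 H s B')
    (h1 : 1 ∉ OddHC.cont (H1.gR B1 H s B')) (w0' : X k) {i : ℕ} (hi : i < 20) :
    bv 1 (H1.gX q B1 H s B' w0' i).1 := by
  have hne : H1.gR B1 H s B' ≠ .nil := by
    intro e
    have h2 := hn.ht
    rw [e] at h2
    change 0 = _ at h2
    omega
  have c1 : (OddHC.cont (H1.gR B1 H s B')).count 1 = 0 := Multiset.count_eq_zero.2 h1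
  have c2 := cont_sq2 hne
  have c3 : (OddHC.cont B').count 1 = 0 ∧ (OddHC.cont (Tsq.sq (H1.gR B1 H s B')).1).count 1 = 0 := by
    rw [hn.sq.1] at c2
    rw [← c2, Multiset.count_add] at c1
    omega
  rw [hn.word w0' hi]
  exact bv_W (nbb_one25 c1) (nbb_one25 c3.1) (nbb_one25 c3.2) q hi

end J3

open J3 SRun JVi

variable {k : ℕ} {F F' : Set (Cyc k)} {g g' : DG k} {R B S : BinaryTree Unit} {w0 : X k}

/-- **I-J2B-A**: all windows of type A, `m ≥ 0`. For the windows of height 4 only: `4 ≤ ht R` and `R = a 1 b` (first maximum) with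
`a ≠ 111`, `b` not `0011..`. -/
theorem J2D.inner_A (h : J2D R B S w0 F g) (h' : TyA F' g')
    (hc : (∀ c ∈ F', htc c = 4) → (∀ c ∈ F', 1 ≤ (contc c).count 1) → 4 ≤ OddHC.ht R ∧
      ∀ a b, H1.FM R a b → a ≠ [true, true, true] ∧ ∀ v, b ≠ false :: false :: true :: true :: v) :
    ∀ p ∈ g.arcs, ∀ w ∈ innA p, w ∉ g'.B := by
  intro p hp w hw hw'
  obtain ⟨j, hj, ej⟩ := h.ar p hp
  have ew : w = TT p.1 := hw
  rw [ej] at ew
  subst ew
  have hq := h.sq
  obtain ⟨q, B1, H, s, B', w0', hn, rfl, rfl⟩ := h'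
  obtain ⟨i, hi, e⟩ := mem_gad20.1 hw'
  by_cases hR1 : 1 ∈ OddHC.cont (H1.gR B1 H s B')
  swap
  · have h1 := bv_gX hn hR1 w0' hi
    rw [e] at h1
    exact (hq.inB w0 hj).not_bv h1
  obtain ⟨a, b, hD⟩ := Dt.ex (Gd_of hq.ne hq.one).1 (by rw [H1.ht_eq]; exact hq.h3)
  have hbig := hn.big
  have e1 : wd (TT (sX R B S w0 j)).1 = wd (H1.W (H1.gR B1 H s B') (H1.ch (q + 1)) B'
      (Tsq.sq (H1.gR B1 H s B')).1 i) := by
    rw [← hn.word w0' hi, e]
  simp only [List.mem_cons, List.not_mem_nil, or_false] at hj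
  rcases hj with rfl | rfl | rfl | rfl
  · obtain ⟨p', s', e2⟩ := ne_W35 hn hR1 (H1.ch (q + 1)) hi
    rw [← e1, hq.innW1 w0 hD.fm] at e2
    exact Dt_n1 hD p' s' e2
  · have e3 : (sX R B S w0 3).1 = (app R (.nil △ .nil) △ .nil) := hq.word w0 (by norm_num)
    refine ne_W4 hn hR1 hD e3 ?_ hi e1
    intro hs
    have h4 := hc ?_ ?_
    · exact ⟨h4.1, h4.2 a b hD.fm⟩
    · rintro c rfl
      change (OddHC.cont (H1.gX q B1 H s B' w0' 0).1).sup = 4
      rw [hn.cont0, Multiset.sup_add, ← OddHC.ht_eq, hn.ht, Multiset.sup_singleton, hs]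
      exact max_eq_left (by omega)
    · rintro c rfl
      change 1 ≤ (OddHC.cont (H1.gX q B1 H s B' w0' 0).1).count 1
      rw [hn.cont0, Multiset.count_add]
      have := Multiset.count_pos.2 hR1
      omega
  · have e6 : (sX R B S w0 6).1 = (R △ (.nil △ .nil)) := hq.word w0 (by norm_num)
    obtain ⟨p', s', e2⟩ := ne_W35 hn hR1 (H1.ch (q + 1)) hi
    rw [← e1] at e2
    have := hD.n5 e6 e2
    simp at this
  · obtain ⟨p', s', e2⟩ := ne_W35 hn hR1 (H1.ch (q + 1)) hi
    rw [← e1] at e2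
    exact N101_8 hD hq w0 p' (true :: s') e2

end Pool.OddHC
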