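import Pool.Agent.Work.MP_8f87b2_h25.J2A
import Pool.Agent.Work.MP_8f87b2_h25.JEM
import Pool.Agent.Work.MP_8f87b2_h25.MatIJV
import Pool.Agent.Work.MP_8f87b2_h17.TyJ2v
import Pool.Agent.Work.MP_8f87b2_h17.TyJ2P
import Pool.Agent.Work.MP_8f87b2_h21.JVi
import Pool.Agent.Work.MP_8f87b2_h77.JVJ1

/-!
# MP_8f87b2_co: inner rows of J2B with `NIS` / `NJS`: H, NM, JY, J5, J5V, Js, Jt (both directions), JV, JVm, JE, JEM (out)
-/

set_option autoImplicit false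

namespace Pool.OddHC

open Finset Equiv BinaryTree Pool.Agent.Work.MP_8f87b2_co

open SRun H1 J3

variable {k : ℕ} {F F' : Set (Cyc k)} {g g' : DG k} {R B S Z : BinaryTree Unit} {w0 : X k}

theorem TyJ2R.toJ2D (h : TyJ2R R B S F g) : ∃ w0 : X k, J2D R B S w0 F g := by
  obtain ⟨w0, h1, h2, h3, h4⟩ := id h
  refine ⟨w0, h1, fun w hw => (h.wordsX w0 w).1 hw, ?_, (h.memF w0 _).2 (Or.inl rfl)⟩
  intro p hp
  obtain ⟨q, hq, e⟩ := (h.arcs w0 p).1 hp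
  simp only [List.mem_cons, List.not_mem_nil, or_false] at hq
  rcases hq with rfl | rfl | rfl | rfl <;> rw [e] <;> simp

theorem TyJ2Rv.toJ2D {v : ℕ} (h : TyJ2Rv v R B S F g) (hv : v < 24) : ∃ w0 : X k, J2D R B S w0 F g := by
  obtain ⟨w0, h1, _⟩ := id h
  refine ⟨w0, h1, fun w hw => (h.wordsX w0 w).1 hw, ?_, (h.memF hv w0).1⟩
  intro p hp
  obtain ⟨q, hq, e⟩ := (h.arcs w0 p).1 hp
  simp only [List.mem_cons, List.not_mem_nil, or_false] at hq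
  rcases hq with rfl | rfl | rfl | rfl <;> rw [e] <;> simp

theorem TyJ2RP.toJ2D (h : TyJ2RP R S F g) : ∃ w0 : X k, J2D R .nil S w0 F g := by
  obtain ⟨w0, h1, _⟩ := id h
  refine ⟨w0, h1, fun w hw => (h.wordsX w0 w).1 hw, ?_, (h.memF w0 _).2 (Or.inl rfl)⟩
  intro p hp
  obtain ⟨q, hq, e⟩ := (h.arcs w0 p).1 hp
  simp only [List.mem_cons, List.not_mem_nil, or_false] at hq
  rcases hq with rfl | rfl | rfl | rfl <;> rw [e] <;> simp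

theorem TyJ2B.toJ2D (h : TyJ2B F g) : ∃ (R B S : BinaryTree Unit) (w0 : X k), J2D R B S w0 F g := by
  obtain ⟨R, B, S, h⟩ := h
  obtain ⟨w0, h⟩ := h.toJ2D
  exact ⟨R, B, S, w0, h⟩

namespace J2D

/-! ### one soliton classes -/

/-- **I-J2B-H** -/
theorem inner_H (h : J2D R B S w0 F g) (h' : Hole2.TyH F' g') : ∀ p ∈ g.arcs, ∀ w ∈ innA p, w ∉ g'.B :=
  h.inner_njs h'.njs

/-- **I-H-J2B** -/
theorem H_inner (h : J2D R B S w0 F' g') (h' : Hole2.TyH F g) : ∀ p ∈ g.arcs, ∀ w ∈ innA p, w ∉ g'.B :=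
  h.nis_inner h'.nis

/-- **I-J2B-J5** -/
theorem inner_J5 (h : J2D R B S w0 F g) (h' : TyJ5 F' g') : ∀ p ∈ g.arcs, ∀ w ∈ innA p, w ∉ g'.B :=
  h.inner_njs h'.njs

/-- **I-J5-J2B** -/
theorem J5_inner (h : J2D R B S w0 F' g') (h' : TyJ5 F g) : ∀ p ∈ g.arcs, ∀ w ∈ innA p, w ∉ g'.B :=
  h.nis_inner h'.nis

/-- **I-J2B-NM** -/
theorem inner_NM (h : J2D R B S w0 F g) (h' : TyNM F' g') : ∀ p ∈ g.arcs, ∀ w ∈ innA p, w ∉ g'.B :=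
  h.inner_njs h'.njs

/-- **I-NM-J2B** -/
theorem NM_inner (h : J2D R B S w0 F' g') (h' : TyNM F g) : ∀ p ∈ g.arcs, ∀ w ∈ innA p, w ∉ g'.B :=
  h.nis_inner h'.nis

/-- **I-J2B-JY** -/
theorem inner_JY (h : J2D R B S w0 F g) (h' : TyJY F' g') : ∀ p ∈ g.arcs, ∀ w ∈ innA p, w ∉ g'.B :=
  h.inner_njs h'.njs

/-- **I-JY-J2B** -/
theorem JY_inner (h : J2D R B S w0 F' g') (h' : TyJY F g) : ∀ p ∈ g.arcs, ∀ w ∈ innA p, w ∉ g'.B :=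
  h.nis_inner h'.nis

/-- **I-J4-J2B** (type `TyJ4`) -/
theorem J4_inner (h : J2D R B S w0 F' g') (h' : TyJ4 F g) : ∀ p ∈ g.arcs, ∀ w ∈ innA p, w ∉ g'.B :=
  h.nis_inner h'.nis

/-- **I-J5V-J2B** -/
theorem J5V_inner (h : J2D R B S w0 F' g') (h' : TyJ5V F g) : ∀ p ∈ g.arcs, ∀ w ∈ innA p, w ∉ g'.B :=
  h.nis_inner h'.nis1

/-! ### J1, J4 -/

/-- **I-J2B-Js** -/
theorem inner_Js (h : J2D R B S w0 F g) (h' : J1.TyJs F' g') : ∀ p ∈ g.arcs, ∀ w ∈ innA p, w ∉ g'.B := by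
  have h4 : 7 ≤ k := by
    obtain ⟨n, w1, _, h2, _, _, _⟩ := id h'
    have hk := h2.num
    change (app (H1.ch (n + 1)) (H1.ch 3)).numNodes + 2 = k at hk
    rw [num_app, Ring1.ch_num, Ring1.ch_num] at hk
    omega
  obtain ⟨s, h5, h1, _⟩ := h'.isJ1
  exact h.inner_J1s (s := s) (c := 3) (by omega) (by norm_num) fun w hw => Or.inl (h1 w hw)

/-- **I-J2B-Jt** -/
theorem inner_Jt (h : J2D R B S w0 F g) (h' : J1.TyJt F' g') : ∀ p ∈ g.arcs, ∀ w ∈ innA p, w ∉ g'.B := by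
  obtain ⟨s, h4, h5, h1, _⟩ := h'.isJ1M
  exact h.inner_J1s (s := s) (c := 4) (by omega) (by norm_num) fun w hw => Or.inr (h1 w hw)

/-- **I-Js-J2B**: content `3, k - 5, 2` excluded -/
theorem Js_inner (h : J2D R B S w0 F' g') (hk : 10 ≤ k) (h' : J1.TyJs F g)
    (hF : ∀ z ∈ F', contc z ≠ {3} + {k - 5} + {2}) : ∀ p ∈ g.arcs, ∀ w ∈ innA p, w ∉ g'.B := by
  obtain ⟨s, rfl, _, hA⟩ := h'.isJ1
  have e1 : s + 5 - 5 = s := by omega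
  rw [e1] at hF
  exact h.J1A_inner (by norm_num) (by omega) hA hF

/-- **I-Jt-J2B**: content `4, k - 6, 2` excluded -/
theorem Jt_inner (h : J2D R B S w0 F' g') (hk : 12 ≤ k) (h' : J1.TyJt F g)
    (hF : ∀ z ∈ F', contc z ≠ {4} + {k - 6} + {2}) : ∀ p ∈ g.arcs, ∀ w ∈ innA p, w ∉ g'.B := by
  obtain ⟨s, _, rfl, _, hA⟩ := h'.isJ1M
  have e1 : s + 6 - 6 = s := by omega
  rw [e1] at hF
  exact h.J1MA_inner (by norm_num) (by omega) hA hF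

/-! ### pair gadgets -/

/-- **I-J2B-JV**, right and mirrored -/
theorem inner_JV (h : J2D R B S w0 F g) (h' : Is9 .nil .nil Z F' g' ∨ Is9M .nil .nil Z F' g')
    (h3 : 3 ≤ OddHC.ht Z) (h1 : (OddHC.cont Z).count 1 = 0) : ∀ p ∈ g.arcs, ∀ w ∈ innA p, w ∉ g'.B :=
  h'.elim (fun h2 => h.inner_njs (h2.njs h3 h1)) (fun h2 => h.inner_njs (h2.njs h3 h1))

/-- **I-J2B-JE** -/
theorem inner_JE (h : J2D R B S w0 F g) (h' : TyJE Z F' g') : ∀ p ∈ g.arcs, ∀ w ∈ innA p, w ∉ g'.B :=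
  h.inner_njs h'.njs

/-- **I-J2B-JEM** -/
theorem inner_JEM (h : J2D R B S w0 F g) (h' : TyJEM Z F' g') : ∀ p ∈ g.arcs, ∀ w ∈ innA p, w ∉ g'.B :=
  h.inner_njs h'.njs

end J2D

end Pool.OddHC
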