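import Pool.Agent.Work.MP_8f87b2_h25.J2A
import Pool.Agent.Work.MP_8f87b2_h2.KHj
import Pool.Agent.Work.MP_8f87b2_h27.Flat
import Pool.Agent.Work.MP_8f87b2_h13.A0Km

/-!
# MP_8f87b2_co: side conditions of the rows J2B-{K, K', Cr, Cl}

`hpk n l`: every factor `0 1 0` of `l` has its first valley at height at least `n`. The inner words of J2B (and J3V) have
`hpk (ht R - 1)`, so a left K link over `U = V(A())()^n` (bead at height 1) is never hit. `KHp.bv1`: the hosts of the right K links
have `bv 1`; `bv_flat`, `bv_S`: the hosts of the content links have `bv 0`.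
-/

set_option autoImplicit false

namespace Pool.OddHC

open BinaryTree Equiv Multiset Pool.Agent.Work.MP_8f87b2_co

namespace J3

open H1 SRun JVi

variable {k n : ℕ} {w : X k} {F F' : Set (Cyc k)} {g g' : DG k} {R B S : BinaryTree Unit} {a b : List Bool}

/-- every factor `0 1 0` has height at least `n` -/
def hpk (n : ℕ) (l : List Bool) : Prop :=
  ∀ u v, l = u ++ false :: true :: false :: v → u.count false + 1 + n ≤ u.count true

/-- the four middles -/
def IG25 (i : ℕ) : List Bool :=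
  if i = 1 then [false, true, false, true, false] else IF i

theorem SqD.innG (h : SqD k R B S) (w0 : X k) {i : ℕ} (hi : i ∈ [1, 3, 6, 8]) (h1 : FM R a b) :
    wd (TT (sX R B S w0 i)).1 = b.map not ++ (IG25 i ++ a.map not) := by
  simp only [List.mem_cons, List.not_mem_nil, or_false] at hi
  rcases hi with rfl | rfl | rfl | rfl
  · exact h.innW1 w0 h1
  · exact h.innW w0 (by simp) h1
  · exact h.innW w0 (by simp) h1
  · exact h.innW w0 (by simp) h1

theorem hpk_mid {X Y : List Bool} (hX : D2 X) (hl : ∃ β, X = β ++ [true]) (hb : X.count true = X.count false + n)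
    (hY : ∀ u v, Y ≠ u ++ false :: true :: false :: v) (hs : ∃ l, Y = false :: l) {i : ℕ}
    (hi : i ∈ [1, 3, 6, 8]) (hn : 1 ≤ n) : hpk (n - 1) (X ++ (IG25 i ++ Y)) := by
  intro u v e
  obtain ⟨β, hβ⟩ := hl
  obtain ⟨l, hl⟩ := hs
  rcases List.append_eq_append_iff.1 e with ⟨r, h1, h2⟩ | ⟨r, h1, h2⟩
  · -- `u = X ++ r`
    have hlen : ∀ r', r = r' → u.count true = X.count true + r'.count true ∧
        u.count false = X.count false + r'.count false := by
      rintro r' rfl
      rw [h1, List.count_append, List.count_append]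
      exact ⟨rfl, rfl⟩
    simp only [List.mem_cons, List.not_mem_nil, or_false] at hi
    rcases hi with rfl | rfl | rfl | rfl
    all_goals
      simp only [IG25, IF, hl] at h2
      rcases r with _ | ⟨x1, _ | ⟨x2, _ | ⟨x3, _ | ⟨x4, _ | ⟨x5, r⟩⟩⟩⟩⟩
    all_goals
      first
      | (exfalso
         simp at h2
         done)
      | (exfalso
         simp at h2
         exact hY r v (by rw [hl, h2.2.2.2.2.2]))
      | (obtain ⟨c1, c2⟩ := hlen _ rfl
         simp at h2
         simp [h2] at c1 c2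
         omega)
  · rcases r with _ | ⟨x1, _ | ⟨x2, _ | ⟨x3, r⟩⟩⟩
    · rw [List.append_nil] at h1
      subst h1
      simp only [List.mem_cons, List.not_mem_nil, or_false] at hi
      rcases hi with rfl | rfl | rfl | rfl
      all_goals
        first
        | (exfalso
           simp [IG25, IF] at h2
           done)
        | omega
    · exfalso
      rw [hβ] at h1
      have h3 := List.append_inj_right' h1 rfl
      simp only [List.cons.injEq, and_true] at h3
      subst h3
      simp at h2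
    · exfalso
      simp only [List.cons_append, List.cons.injEq, List.nil_append] at h2
      obtain ⟨rfl, rfl, _⟩ := h2
      exact (hX.cut (by simp) h1).2.not_one
    · exfalso
      simp only [List.cons_append, List.cons.injEq] at h2
      obtain ⟨rfl, rfl, rfl, _⟩ := h2
      exact no3 hX (by simp) _ _ h1

/-- **the factors `0 1 0` of the inner words** -/
theorem SqD.hpk (h : SqD k R B S) (w0 : X k) {i : ℕ} (hi : i ∈ [1, 3, 6, 8]) :
    hpk (OddHC.ht R - 1) (wd (TT (sX R B S w0 i)).1) := by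
  obtain ⟨a, b, hD⟩ := Dt.ex (Gd_of h.ne h.one).1 (by rw [H1.ht_eq]; exact h.h3)
  have h3 := h.h3
  have hR : Tsq.ht R = OddHC.ht R := H1.ht_eq R
  have hb1 := hD.fm.bal
  have m1 : (b.map not).count true = b.count false := Tsq.count_not_true b
  have m2 : (b.map not).count false = b.count true := Tsq.count_not_false b
  rw [h.innG w0 hi hD.fm]
  exact hpk_mid hD.be hD.last (by rw [m1, m2]; omega) hD.al' hD.st hi (by omega)

/-- a bead behind a word at height 1 -/
theorem not_hpk {V A C : BinaryTree Unit} (hA : A ≠ .nil) (h2 : 2 ≤ n)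
    (e : wd w.1 = wd (app V (app A (.nil △ .nil) △ C))) (h : hpk n (wd w.1)) : False := by
  obtain ⟨r, hr⟩ := H1.wd_last hA
  have e1 : wd w.1 = (wd V ++ true :: r) ++ false :: true :: false :: (false :: wd C) := by
    rw [e, wd_app, wd_node, wd_app, hr, wd_node]
    simp [wd]
  have h1 := h _ _ e1
  have c1 := wd_counts V
  have c2 := wd_counts A
  rw [hr, List.count_append, List.count_append] at c2
  rw [List.count_append, List.count_append, List.count_cons, List.count_cons] at h1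
  simp at c2 h1
  omega

theorem J2In.hpk (h : J2In F g) : ∀ p ∈ g.arcs, ∀ w ∈ innA p, hpk 2 (wd w.1) := by
  obtain ⟨R, B, S, w0, h1, _, h2⟩ := h
  intro p hp w hw
  obtain ⟨i, hi, e⟩ := h2 p hp
  rw [e] at hw
  obtain rfl : w = _ := hw
  intro u v e1
  have h3 := h1.hpk w0 hi u v e1
  have h4 := h1.h3
  omega

/-- **I-J2B-K'**, the hosts of helper13 -/
theorem J2In.inner_KmSh (h : J2In F g) (hS : KmSh S) (h' : TyK' S F' g') :
    ∀ p ∈ g.arcs, ∀ w ∈ innA p, w ∉ g'.B := by
  obtain ⟨n, h0, h1⟩ := h.inB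
  intro p hp w hw hw'
  have hb := h1 p hp w hw
  obtain ⟨V, A, m, hA, rfl⟩ := hS
  rcases IsTri.words h' w hw' with e | ⟨_, e | e⟩
  · exact sta2_first hb.sta e
  · exact end2_last hb.en (Y := app (app V (app A (.nil △ .nil) △ lp m)) (.nil △ .nil)) (by
      rw [e]
      unfold w1
      simp only [H1.app_assoc, app])
  · refine not_hpk (V := (.nil △ .nil) △ V) (C := lp m) hA (by norm_num) ?_ (h.hpk p hp w hw)
    rw [e]
    rfl

/-! ### `bv` of the hosts -/

theorem bv_lp (n m : ℕ) : bv n (lp m) := by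
  induction m with
  | zero => exact bv_nil n
  | succ m ih => exact bv_leaf ih

theorem bv_hv (n : ℕ) {t : BinaryTree Unit} (h : H1.hv t) : bv n t := (nbb_hv (hv_part h)).bv n

theorem bv_pc (n m : ℕ) : bv n (pc m) := by rw [← ch_eq]; exact bv_ch n m

theorem bv_lv2 (n m : ℕ) {t : BinaryTree Unit} (h : bv n t) : bv n (lv2 m t) := by
  induction m with
  | zero => exact h
  | succ m ih => exact bv_tower (nbb_ch 1) ih

/-- the hosts of the right K links -/
theorem KHp.bv1 (h : KHp S) : bv 1 S := by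
  rcases h with ⟨S1, q, rfl, h1, h2, -⟩ | ⟨S1, q, rfl, h1, h2⟩ | ⟨S1, q, rfl, h1, h2⟩ | ⟨S1, q, rfl, h1, h2⟩ |
    ⟨S1, A, m, rfl, h1, h2⟩ | ⟨S1, q, rfl, h1, h2⟩
  · exact bv_app (bv_hv 1 h1) (bv_pc 1 _)
  · exact bv_app (bv_hv 1 h1) (bv_leaf (bv_pc 1 _))
  · exact bv_app (bv_hv 1 h1) (bv_lp 1 _)
  · exact bv_app (bv_hv 1 h1) (bv_leaf (bv_app (bv_pc 1 _) (bv_lp 1 _)))
  · refine bv_app (bv_hv 1 h1) (bv_node (bv_app ?_ (bv_lp 0 1)) (bv_lp 1 _))
    rcases h2 with ⟨_, rfl⟩ | ⟨h2, _⟩
    · exact bv_pc 0 2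
    · exact bv_hv 0 h2
  · exact bv_app (bv_hv 1 h1) (bv_lv2 1 _ (bv_nil 1))

/-- flat words -/
theorem bv_fl {t : BinaryTree Unit} (h : H1.fl t) : bv 0 t := by
  induction t with
  | nil => exact bv_nil 0
  | node _ A X _ ih =>
    obtain ⟨⟨n, rfl⟩, h2⟩ := h
    exact bv_tower (nbb_ch n) (ih h2)

/-- **I-J2B-K** -/
theorem J2In.inner_Kh (h : J2In F g) (h' : TyKh F' g') : ∀ p ∈ g.arcs, ∀ w ∈ innA p, w ∉ g'.B := by
  obtain ⟨S, h1, h2⟩ := h'
  exact h.inner_K h2 (KHp.bv1 h1)

/-- **I-J2B-Cr**, flat hosts or hosts with the beads at the end -/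
theorem J2In.inner_CrF (h : J2In F g) {c : ℕ} (hS : H1.fl S ∨ ∃ S0 m, H1.hv S0 ∧ S = app S0 (lp m))
    (h' : TyC c S F' g') : ∀ p ∈ g.arcs, ∀ w ∈ innA p, w ∉ g'.B := by
  refine h.inner_Cr h' ?_
  rcases hS with hS | ⟨S0, m, h1, rfl⟩
  · exact bv_fl hS
  · exact bv_app (bv_hv 0 h1) (bv_lp 0 m)

/-- **I-J2B-Cl**, flat hosts or hosts with the beads at the end -/
theorem J2In.inner_ClF (h : J2In F g) {c : ℕ} (hS : H1.fl S ∨ ∃ S0 m, H1.hv S0 ∧ S = app S0 (lp m))
    (h' : TyC' c S F' g') : ∀ p ∈ g.arcs, ∀ w ∈ innA p, w ∉ g'.B := by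
  refine h.inner_Cl h' ?_
  rcases hS with hS | ⟨S0, m, h1, rfl⟩
  · exact bv_fl hS
  · exact bv_app (bv_hv 0 h1) (bv_lp 0 m)

end J3

end Pool.OddHC
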