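import Pool.Agent.Work.MP_8f87b2_fin.MatZ
import Pool.Agent.Work.MP_8f87b2_fin.MatJ2
import Pool.Agent.Work.MP_8f87b2_h11.GJ2
import Pool.Agent.Work.MP_8f87b2_h25.J2K
import Pool.Agent.Work.MP_8f87b2_h25.J2Bi2
import Pool.Agent.Work.MP_8f87b2_h59.J33
import Pool.Agent.Work.MP_8f87b2_h77.JVJ2B
import Pool.Agent.Work.MP_8f87b2_h99.J2I3
import Pool.Agent.Work.MP_8f87b2_h99.J2I4

/-!
# MP_8f87b2_co: the inner words of `J2B` against all types, and all types against `J2B`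

`J2X F g`: abstract data (`J2D`, also for merged versions on the same words and arcs).
-/

set_option autoImplicit false

namespace Pool.OddHC

open Finset Equiv BinaryTree Pool.Agent.Work.MP_8f87b2_co

namespace MW

open J3 SRun

variable {k : ℕ} {F F' : Set (Cyc k)} {g g' : DG k}

/-- abstract J2B (all merged versions, and J2P) -/
def J2X (F : Set (Cyc k)) (g : DG k) : Prop :=
  ∃ (R B S : BinaryTree Unit) (w0 : X k), J2D R B S w0 F g

theorem J2X.of (h : TyJ2B F g) : J2X F g := by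
  obtain ⟨R, B, S, h⟩ := h
  obtain ⟨w0, h1⟩ := h.toJ2D
  exact ⟨R, B, S, w0, h1⟩

theorem J2S.x (h : J2S F g) : J2X F g := by
  obtain ⟨R, B, S, ⟨v, hv, h⟩, _⟩ := h
  obtain ⟨w0, h1⟩ := h.toJ2D hv
  exact ⟨R, B, S, w0, h1⟩

theorem J2X.ofP {R S : BinaryTree Unit} (h : TyJ2RP R S F g) : J2X F g := by
  obtain ⟨w0, h1⟩ := h.toJ2D
  exact ⟨R, _, S, w0, h1⟩

/-- one T-cycle is enough -/
theorem J2X.inn (h : J2X F g) : ∃ z ∈ F, J2In {z} g := by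
  obtain ⟨R, B, S, w0, h1⟩ := h
  refine ⟨_, h1.f0, h1.one.toIn ?_⟩
  rintro c rfl
  exact htc_z h1.sq w0

theorem J2X.njs (h : J2X F g) : ∀ w ∈ g.B, NJS w := by
  obtain ⟨R, B, S, w0, h1⟩ := h
  exact h1.njs

theorem J2X.nis (h : J2X F g) : ∀ p ∈ g.arcs, ∀ w ∈ innA p, NIS w := by
  obtain ⟨R, B, S, w0, h1⟩ := h
  exact h1.nis

theorem J2X.ne (h : J2X F g) : F.Nonempty := by
  obtain ⟨R, B, S, w0, h1⟩ := h
  exact ⟨_, h1.f0⟩

theorem J2X.gj (h : J2X F g) : Ft.GJ g := by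
  obtain ⟨R, B, S, w0, h1⟩ := h
  refine Ft.GJ.right (R := R) (B := B) (S := S) h1.sq.bf ?_ ?_
  · intro w hw
    obtain ⟨i, hi, rfl⟩ := h1.wds w hw
    exact ⟨i, hi, h1.sq.word w0 hi⟩
  · intro a ha
    obtain ⟨i, hi, e⟩ := h1.ar a ha
    simp only [List.mem_cons, List.not_mem_nil, or_false] at hi
    refine ⟨i, ?_, ?_⟩
    · simp only [List.mem_cons, List.not_mem_nil, or_false]
      omega
    · rw [e]
      exact h1.sq.word w0 (by omega)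

/-! ### J2B against the plain types -/

/-- the height of an inner word -/
theorem J2X.ht_inn (h : J2X F g) : ∃ c ∈ F, ∀ p ∈ g.arcs, ∀ w ∈ innA p, htc (cyc w) ≤ htc c + 1 := by
  obtain ⟨R, B, S, w0, h1⟩ := h
  refine ⟨_, h1.f0, ?_⟩
  intro p hp w hw
  obtain ⟨i, hi, e⟩ := h1.ar p hp
  have e1 : w = TT p.1 := hw
  rw [e1, e, htc_z h1.sq w0, htc_cyc, h1.sq.htInn w0 hi]
  split <;> omega

/-- **plain triples of greater height** -/
theorem J2X.tri_lt {P Q R : BinaryTree Unit} (h : J2X F g) (h' : IsTri P Q R F' g')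
    (hlt : ∀ c ∈ F, ∀ d ∈ F', htc c < htc d) :
    ∀ p ∈ g.arcs, ∀ w ∈ innA p, w ∈ g'.B → w.1 = w1 Q R P ∨ w.1 = w1 R P Q := by
  intro p hp w hw hw'
  rcases h'.words w hw' with e | ⟨_, e⟩
  · exfalso
    obtain ⟨a, b, c, ha, hb, hc, k1, k2, k3, rfl, rfl⟩ := h'
    have e1 : w = a := Subtype.ext (e.trans ha.symm)
    obtain ⟨z, hz, h0⟩ := h.ht_inn
    have h1 := h0 p hp w hw
    have h2 := hlt z hz (cyc b) (Or.inl rfl)
    rw [e1] at h1
    omega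
  · exact e

/-- the side condition of `J2B` against `E`: greater height, or a sharp phase, or no hit -/
def sI_J2_E (F F' : Set (Cyc k)) (g g' : DG k) : Prop :=
  (∀ c ∈ F, ∀ d ∈ F', htc c < htc d) ∨
    (4 < k ∧ ∃ R, J2Ar R F g ∧ ¬ JV.NS R ∧ 4 ≤ OddHC.ht R ∧
      (1 ≤ (OddHC.cont R).count 2 ∨ 1 ≤ (OddHC.cont R).count 3)) ∨ NI g g'

theorem i_J2_E (h : J2X F g) (h' : TyE F' g') (hle : ∀ c ∈ F, ∀ d ∈ F', htc c ≤ htc d)
    (hs : sI_J2_E F F' g g') : NI g g' := by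
  rcases hs with hs | ⟨hk, R, h1, h2, h3, h4⟩ | hs
  · obtain ⟨j, r, f, hj, hr, ht⟩ := h'
    intro p hp w hw hw'
    obtain ⟨z, _, hz⟩ := h.inn
    obtain ⟨n, _, h3⟩ := hz.inB
    rcases h.tri_lt ht hs p hp w hw hw' with e | e
    · exact end2_last (h3 p hp w hw).en e
    · exact sta2_first (h3 p hp w hw).sta e
  · exact fun p hp w hw => h1.inner_E_sharp h.ne hk h2 h3 h4 h' hle p hp w hw
  · exact hs

theorem i_J2_En (h : J2X F g) (h' : TyEnG F' g') (hle : ∀ c ∈ F, ∀ d ∈ F', htc c ≤ htc d)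
    (hs : sI_J2_E F F' g g') : NI g g' := i_J2_E h h'.1.toE hle hs

theorem i_J2_Ed (h : J2X F g) (h' : TyEd F' g') (hle : ∀ c ∈ F, ∀ d ∈ F', htc c ≤ htc d)
    (hs : sI_J2_E F F' g g') : NI g g' := i_J2_E h h'.toE hle hs

theorem i_J2_L (h : J2X F g) (h' : TyL F' g') : NI g g' := by
  obtain ⟨z, _, hz⟩ := h.inn
  exact fun p hp w hw => hz.inner_L h' p hp w hw

theorem i_J2_LG (h : J2X F g) (h' : TyLG F' g') : NI g g' := i_J2_L h h'.1

theorem i_J2_K (h : J2X F g) (h' : TyKh F' g') : NI g g' := by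
  obtain ⟨z, _, hz⟩ := h.inn
  exact fun p hp w hw => hz.inner_Kh h' p hp w hw

theorem i_J2_Km (h : J2X F g) (h' : KmS F' g') : NI g g' := by
  obtain ⟨S, _, _, _, _, h1, h2⟩ := h'
  obtain ⟨z, _, hz⟩ := h.inn
  exact fun p hp w hw => hz.inner_KmSh h1 h2 p hp w hw

/-- beads of the host of a right content link at the top level only -/
def siJ2_Cr (F' : Set (Cyc k)) (g' : DG k) : Prop := ∃ (c : ℕ) (U : BinaryTree Unit), bv 0 U ∧ TyC c U F' g'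

/-- beads of the host of a left content link at the top level only -/
def siJ2_Cl (F' : Set (Cyc k)) (g' : DG k) : Prop := ∃ (c : ℕ) (U : BinaryTree Unit), bv 0 U ∧ TyC' c U F' g'

theorem i_J2_C (h : J2X F g) (hs : siJ2_Cr F' g') : NI g g' := by
  obtain ⟨c, U, h1, h2⟩ := hs
  obtain ⟨z, _, hz⟩ := h.inn
  exact fun p hp w hw => hz.inner_Cr h2 h1 p hp w hw

theorem i_J2_C' (h : J2X F g) (hs : siJ2_Cl F' g') : NI g g' := by
  obtain ⟨c, U, h1, h2⟩ := hs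
  obtain ⟨z, _, hz⟩ := h.inn
  exact fun p hp w hw => hz.inner_Cl h2 h1 p hp w hw

theorem i_J2_Dn (h : J2X F g) (hs : ∃ U : BinaryTree Unit, bv 0 U ∧ TyC 2 U F' g') : NI g g' := by
  obtain ⟨U, h1, h2⟩ := hs
  exact i_J2_C h ⟨2, U, h1, h2⟩

theorem i_J2_Fz (h : J2X F g) (h' : TyFz F' g') : NI g g' := by
  obtain ⟨z, _, hz⟩ := h.inn
  exact fun p hp w hw => hz.inner_Fz h' p hp w hw

theorem i_J2_S5 (h : J2X F g) (h' : TyS5l F' g') : NI g g' := by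
  obtain ⟨z, _, hz⟩ := h.inn
  exact fun p hp w hw => hz.inner_S5 h'.toS5 p hp w hw

theorem i_J2_P5 (h : J2X F g) (h' : P5DS F' g') : NI g g' := by
  obtain ⟨S, h1⟩ := h'
  obtain ⟨z, _, hz⟩ := h.inn
  exact fun p hp w hw => hz.inner_P5D h1 p hp w hw

theorem i_J2_P5m (h : J2X F g) (h' : P5MS F' g') : NI g g' := by
  obtain ⟨S, h1⟩ := h'
  obtain ⟨z, _, hz⟩ := h.inn
  exact fun p hp w hw => hz.inner_P5MD h1 p hp w hw

/-! ### J2B against the windows -/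

/-- windows of height 4 with a part 1 -/
def siJ2_A (F F' : Set (Cyc k)) (g : DG k) : Prop :=
  (∀ c ∈ F', htc c = 4) → (∀ c ∈ F', 1 ≤ (contc c).count 1) → ∃ (R B S : BinaryTree Unit) (w0 : X k),
    J2D R B S w0 F g ∧ 4 ≤ OddHC.ht R ∧
      ∀ a b, H1.FM R a b → a ≠ [true, true, true] ∧ ∀ v, b ≠ false :: false :: true :: true :: v

theorem i_J2_A (h : J2X F g) (h' : TyA F' g') (hs : siJ2_A F F' g) : NI g g' := by
  by_cases h4 : (∀ c ∈ F', htc c = 4) ∧ ∀ c ∈ F', 1 ≤ (contc c).count 1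
  · obtain ⟨R, B, S, w0, h1, h2⟩ := hs h4.1 h4.2
    exact fun p hp w hw => h1.inner_A h' (fun _ _ => h2) p hp w hw
  · obtain ⟨R, B, S, w0, h1⟩ := h
    exact fun p hp w hw => h1.inner_A h' (fun h5 h6 => absurd ⟨h5, h6⟩ h4) p hp w hw

theorem i_J2_Ap (h : J2X F g) (h' : TyAp F' g') (hs : siJ2_A F F' g) : NI g g' := i_J2_A h h'.toA hs

theorem i_J2_Aq (h : J2X F g) (h' : TyAq F' g') (hs : siJ2_A F F' g) : NI g g' := i_J2_A h h'.toA hs

theorem i_J2_Az (h : J2X F g) (h' : TyAz F' g') (hs : siJ2_A F F' g) : NI g g' := i_J2_A h h'.toA hs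

theorem i_J2_Rq (h : J2X F g) {q : ℕ} (h' : TyRq q F' g') : NI g g' := by
  obtain ⟨R, B, S, w0, h1, _, rfl, rfl⟩ := h'
  obtain ⟨z, _, hz⟩ := h.inn
  intro p hp w hw hw'
  obtain ⟨i, hi, e⟩ := mem_gad20.1 hw'
  exact hz.inner_bareR h1 p hp w hw i hi e.symm

theorem i_J2_R (h : J2X F g) (h' : RqS F' g') : NI g g' := by
  obtain ⟨q, h1⟩ := h'.rq
  exact i_J2_Rq h h1

theorem i_J2_RE (h : J2X F g) (h' : RES F' g') : NI g g' := by
  obtain ⟨q, R, S, w0, h1, _, _, rfl, rfl⟩ := h'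
  obtain ⟨z, _, hz⟩ := h.inn
  intro p hp w hw hw'
  obtain ⟨i, hi, e⟩ := mem_gadB11.1 hw'
  exact hz.inner_bareR h1 p hp w hw i hi e.symm

theorem i_J2_T (h : J2X F g) (h4 : ∀ c ∈ F, 4 ≤ htc c) (h' : TyT F' g')
    (hle : ∀ c ∈ F, ∀ d ∈ F', htc c ≤ htc d) : NI g g' := by
  obtain ⟨z, h1, hz⟩ := h.inn
  refine fun p hp w hw => hz.inner_T ⟨z, rfl⟩ ?_ h' ?_ p hp w hw
  · rintro c rfl
    exact h4 _ h1
  · rintro c rfl
    exact hle _ h1

theorem i_J2_Bw (h : J2X F g) (h' : TyBw F' g') : NI g g' := by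
  obtain ⟨z, _, hz⟩ := h.inn
  exact fun p hp w hw => hz.inner_Bw h' p hp w hw

/-! ### J2B against the J types -/

theorem i_J2_njs (h : J2X F g) (h' : ∀ w ∈ g'.B, NJS w) : NI g g' :=
  fun p hp w hw => (h.nis p hp w hw).not_mem h'

theorem i_J2_J1 (h : J2X F g) (h' : J1.TyJs F' g') : NI g g' := by
  obtain ⟨R, B, S, w0, h1⟩ := h
  exact fun p hp w hw => h1.inner_Js h' p hp w hw

theorem i_J2_J4 (h : J2X F g) (h' : J1.TyJt F' g') : NI g g' := by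
  obtain ⟨R, B, S, w0, h1⟩ := h
  exact fun p hp w hw => h1.inner_Jt h' p hp w hw

theorem i_J2_J3V (h : J2X F g) (h' : TyJ3V F' g') : NI g g' := i_J2_njs h h'.njs

theorem i_J2_J33 (h : J2X F g) (h' : TyJ33Q F' g') : NI g g' := i_J2_J3V h h'.toJ3V

theorem i_J2_H (h : J2X F g) (h' : Hole2.TyH F' g') : NI g g' := i_J2_njs h h'.njs

theorem i_J2_JV (h : J2X F g) (h' : JVS F' g') : NI g g' := by
  obtain ⟨Z, h0, h3, h2⟩ := h'
  exact i_J2_njs h (h2.njs h3 h0)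

theorem i_J2_JE (h : J2X F g) (h' : JES F' g') : NI g g' := by
  obtain ⟨R, h1⟩ := h'
  exact i_J2_njs h h1.njs

theorem i_J2_J2 (h : J2X F g) (h' : J2X F' g') : NI g g' := i_J2_njs h h'.njs

theorem i_J2_self (h : J2X F g) : NI g g := i_J2_J2 h h

theorem i_J2_L1 (hk : 9 ≤ k) (h : J2X F g) (h' : TyL1 F' g') : NI g g' :=
  fun p hp w hw => TyL1.GJ_inner hk h.gj h' p hp w hw

/-! ### The other types against J2B -/

theorem i_L1_J2 (hk : 9 ≤ k) (h : TyL1 F g) (h' : J2X F' g') : NI g g' :=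
  fun p hp w hw => h.inner_GJ hk h'.gj p hp w hw

theorem i_nis_J2 (h : ∀ p ∈ g.arcs, ∀ w ∈ innA p, NIS w) (h' : J2X F' g') : NI g g' :=
  fun p hp w hw => (h p hp w hw).not_mem h'.njs

theorem i_H_J2 (h : Hole2.TyH F g) (h' : J2X F' g') : NI g g' := i_nis_J2 h.nis h'

theorem i_J3V_J2 (h : TyJ3V F g) (h' : J2X F' g') : NI g g' := i_nis_J2 h.nis h'

theorem i_J33_J2 (h : TyJ33Q F g) (h' : J2X F' g') : NI g g' := i_J3V_J2 h.toJ3V h'

/-- the content `3, k - 5, 2` -/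
theorem i_J1_J2 (hk : 10 ≤ k) (h : J1.TyJs F g) (h' : J2X F' g')
    (hs : ∀ z ∈ F', contc z ≠ {3} + {k - 5} + {2}) : NI g g' := by
  obtain ⟨R, B, S, w0, h1⟩ := h'
  exact fun p hp w hw => h1.Js_inner hk h hs p hp w hw

/-- the content `4, k - 6, 2` -/
theorem i_J4_J2 (hk : 12 ≤ k) (h : J1.TyJt F g) (h' : J2X F' g')
    (hs : ∀ z ∈ F', contc z ≠ {4} + {k - 6} + {2}) : NI g g' := by
  obtain ⟨R, B, S, w0, h1⟩ := h'
  exact fun p hp w hw => h1.Jt_inner hk h hs p hp w hw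

/-- **JV - J2B**: `NS` everywhere, or not `Up` and different heights, or no hit -/
def sI_JV_J2 (F F' : Set (Cyc k)) (g g' : DG k) : Prop :=
  (∃ (Z R B S : BinaryTree Unit) (w0 : X k), (JZ F g Z ∨ TyJE Z F g) ∧ J2D R B S w0 F' g' ∧
    ((JV.NS Z ∧ JV.NS R ∧ JV.NS S) ∨ (¬ JV.Up Z ∧ OddHC.ht R ≠ OddHC.ht Z))) ∨ NI g g'

theorem J2D.wd {R B S : BinaryTree Unit} {w0 : X k} (h : J2D R B S w0 F g) :
    ∀ w ∈ g.B, ∃ i < 20, w.1 = H1.W R .nil B S i := by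
  intro w hw
  obtain ⟨i, hi, rfl⟩ := h.wds w hw
  exact ⟨i, hi, h.sq.word w0 hi⟩

theorem i_JV_J2 (hs : sI_JV_J2 F F' g g') : NI g g' := by
  rcases hs with ⟨Z, R, B, S, w0, ⟨h0, h3, h⟩ | h, h1, ⟨h4, h5, h6⟩ | ⟨h4, h5⟩⟩ | hs
  · exact fun p hp w hw => h.inner_W_ns h3 h0 h4 h1.sq h5 h6 (J2D.wd h1) p hp w hw
  · exact fun p hp w hw => h.inner_W_up h3 h0 h4 h5 h1.sq (J2D.wd h1) p hp w hw
  · exact fun p hp w hw => h.inner_W_ns h4 h1.sq h5 h6 (J2D.wd h1) p hp w hw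
  · exact fun p hp w hw => h.inner_W_up h4 h5 h1.sq (J2D.wd h1) p hp w hw
  · exact hs

theorem i_JE_J2 (hs : sI_JV_J2 F F' g g') : NI g g' := i_JV_J2 hs

end MW

end Pool.OddHC
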